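import Pool.Agent.H35.OT.Pt

/-! Assembly: the middle coefficient of the product. -/

set_option autoImplicit false

namespace Pool.Agent.H35.OT

open Polynomial NumberField IsDedekindDomain Pool.Agent.H7.OR

theorem asm_coeff {R ι : Type*} [CommRing R] [DecidableEq ι] (s : Finset ι) (f : ι → R[X]) (a : ι → ℕ)
    (h : ∀ i ∈ s, X ^ a i ∣ f i) :
    (∏ i ∈ s, f i).coeff (∑ i ∈ s, a i) = ∏ i ∈ s, (f i).coeff (a i) ∧
      X ^ (∑ i ∈ s, a i) ∣ ∏ i ∈ s, f i := by
  induction s using Finset.induction_on with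
  | empty => simp
  | insert i s hi ih =>
    obtain ⟨h1, h2⟩ := ih (fun j hj => h j (Finset.mem_insert_of_mem hj))
    obtain ⟨u, hu⟩ := h2
    obtain ⟨w, hw⟩ := h i (Finset.mem_insert_self _ _)
    rw [Finset.prod_insert hi, Finset.prod_insert hi, Finset.sum_insert hi]
    constructor
    · rw [← h1, hu, hw]
      have e1 : X ^ a i * w * (X ^ (∑ x ∈ s, a x) * u) = (w * u) * X ^ (a i + ∑ x ∈ s, a x) := by
        rw [pow_add]; ring
      rw [e1, mul_comm (X ^ a i) w, mul_comm (X ^ _) u]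
      have e2 : ∀ (n : ℕ) (q : R[X]), (q * X ^ n).coeff n = q.coeff 0 := by
        intro n q
        have := coeff_mul_X_pow q n 0
        rwa [zero_add] at this
      rw [e2, e2, e2, mul_coeff_zero]
    · refine ⟨w * u, ?_⟩
      rw [hu, hw, pow_add]; ring

variable {L κ : Type} [Field L] [NumberField L] [Fintype κ] {E : κ → Type}
  [∀ k, Field (E k)] [∀ k, NumberField (E k)]

theorem asm_map (hE : ∀ k, Nat.card (E k →+* L) = Module.finrank ℚ (E k))
    [∀ k, Fintype (E k →+* L)] (W : ℤ[X]) (P : ∀ k, (𝓞 (E k))[X])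
    (hW : W.map (Int.castRingHom ℂ) =
      ∏ k, ∏ τ : E k →+* ℂ, (P k).map (τ.comp (algebraMap (𝓞 (E k)) (E k)))) :
    W.map (Int.castRingHom (𝓞 L)) =
      ∏ k, ∏ σ : E k →+* L, (P k).map (RingOfIntegers.mapRingHom σ) := by
  obtain ⟨ψ⟩ : Nonempty (L →+* ℂ) := inferInstance
  have hψ : Function.Injective (ψ.comp (algebraMap (𝓞 L) L)) :=
    ψ.injective.comp RingOfIntegers.coe_injective
  apply map_injective _ hψ
  rw [Polynomial.map_map, Polynomial.map_prod]
  have h1 : (ψ.comp (algebraMap (𝓞 L) L)).comp (Int.castRingHom (𝓞 L)) = Int.castRingHom ℂ :=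
    RingHom.ext_int _ _
  rw [h1, hW]
  refine Finset.prod_congr rfl fun k _ => ?_
  rw [Polynomial.map_prod]
  have hbij : Function.Bijective (fun σ : E k →+* L => ψ.comp σ) := by
    rw [Fintype.bijective_iff_injective_and_card]
    constructor
    · intro σ σ' hh
      ext x
      exact ψ.injective (congrArg (fun g : E k →+* ℂ => g x) hh)
    · rw [NumberField.Embeddings.card (E k) ℂ, ← hE k, Nat.card_eq_fintype_card]
  symm
  refine Fintype.prod_bijective _ hbij _ _ fun σ => ?_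
  rw [Polynomial.map_map]
  rfl

omit [NumberField L] in
theorem asm_sum {K : Type} [Field K] [Algebra K L] {E : Type} [Field E] [NumberField E]
    [Fintype (E →+* L)] {s : L ≃ₐ[K] L} {ι : E →+* E} {m j : ℕ} {r : (E →+* L) → ℕ}
    (h : IsType s ι m j r) : 2 * ∑ σ : E →+* L, (m - r σ) = m * Module.finrank ℚ E := by
  have hιι : ∀ x : E, ι (ι x) = x := by
    intro x
    obtain ⟨τ⟩ : Nonempty (E →+* ℂ) := inferInstance
    apply τ.injective
    rw [h.conj, h.conj, Complex.conj_conj]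
  have hιc : ∀ σ : E →+* L, (σ.comp ι).comp ι = σ := by
    intro σ
    ext x
    simp [hιι]
  have h1 : ∑ σ : E →+* L, (m - r σ) = ∑ σ : E →+* L, r σ := by
    refine Finset.sum_nbij' (fun σ => σ.comp ι) (fun σ => σ.comp ι) ?_ ?_ ?_ ?_ ?_
    · intro σ _; exact Finset.mem_univ _
    · intro σ _; exact Finset.mem_univ _
    · intro σ _; exact hιc σ
    · intro σ _; exact hιc σ
    · intro σ _
      have := h.dual σ
      omega
  have h2 : ∑ σ : E →+* L, (m - r σ) + ∑ σ : E →+* L, r σ = m * Module.finrank ℚ E := by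
    rw [← Finset.sum_add_distrib, Finset.sum_congr rfl (fun σ _ => Nat.sub_add_cancel (pt_le h σ)),
      Finset.sum_const, Finset.card_univ, ← Nat.card_eq_fintype_card, h.emb, smul_eq_mul, mul_comm]
  omega

/-- the coefficient at the total multiplicity of the unit roots is prime to `p` -/
theorem asm_gen (hemb : ∀ k, Nat.card (E k →+* L) = Module.finrank ℚ (E k))
    [∀ k, Fintype (E k →+* L)] {m : κ → ℕ} (u : ∀ k, (E k →+* L) → ℕ) (p : ℕ) (Q : Ideal (𝓞 L))
    (hQ : Q.IsPrime) (hpQ : (p : 𝓞 L) ∈ Q) (W : ℤ[X]) (P : ∀ k, (𝓞 (E k))[X])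
    (hW : W.map (Int.castRingHom ℂ) =
      ∏ k, ∏ τ : E k →+* ℂ, (P k).map (τ.comp (algebraMap (𝓞 (E k)) (E k))))
    (hu : ∀ k, ∀ σ : E k →+* L, RingOfIntegers.mapRingHom σ ((P k).coeff (m k - u k σ)) ∉ Q)
    (hv : ∀ k, ∀ σ : E k →+* L, ∀ i, u k σ < i → i ≤ m k →
      RingOfIntegers.mapRingHom σ ((P k).coeff (m k - i)) ∈ Q) :
    ¬ (p : ℤ) ∣ W.coeff (∑ k, ∑ σ : E k →+* L, (m k - u k σ)) := by
  classical
  have h1 := asm_map hemb W P hW
  have h2 := congrArg (fun q => q.map (Ideal.Quotient.mk Q)) h1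
  simp only [Polynomial.map_map] at h2
  rw [Polynomial.map_prod] at h2
  have h3 : ∀ k, (∏ σ : E k →+* L, (P k).map (RingOfIntegers.mapRingHom σ)).map (Ideal.Quotient.mk Q) =
      ∏ σ : E k →+* L, (P k).map ((Ideal.Quotient.mk Q).comp (RingOfIntegers.mapRingHom σ)) := by
    intro k
    rw [Polynomial.map_prod]
    exact Finset.prod_congr rfl fun σ _ => by rw [Polynomial.map_map]
  rw [Finset.prod_congr rfl (fun k _ => h3 k), Finset.prod_sigma'] at h2
  set f : (Σ k, (E k →+* L)) → (𝓞 L ⧸ Q)[X] := fun x =>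
    (P x.1).map ((Ideal.Quotient.mk Q).comp (RingOfIntegers.mapRingHom x.2)) with hf
  set a : (Σ k, (E k →+* L)) → ℕ := fun x => m x.1 - u x.1 x.2 with ha
  have h4 : ∀ x ∈ (Finset.univ : Finset (Σ k, (E k →+* L))), X ^ a x ∣ f x := by
    rintro ⟨k, σ⟩ -
    rw [X_pow_dvd_iff]
    intro d hd
    simp only [ha] at hd
    simp only [hf, coeff_map, RingHom.comp_apply]
    rw [Ideal.Quotient.eq_zero_iff_mem]
    have h5 := hv k σ (m k - d) (by omega) (by omega)
    rwa [show m k - (m k - d) = d by omega] at h5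
  obtain ⟨h5, -⟩ := asm_coeff Finset.univ f a h4
  have hsum : ∑ x : (Σ k, (E k →+* L)), a x = ∑ k, ∑ σ : E k →+* L, (m k - u k σ) := by
    rw [Fintype.sum_sigma]
  rw [hsum] at h5
  have h6 : (∏ x : (Σ k, (E k →+* L)), f x) = W.map ((Ideal.Quotient.mk Q).comp (Int.castRingHom (𝓞 L))) := by
    rw [h2, Finset.univ_sigma_univ]
  rw [h6, coeff_map] at h5
  intro hdvd
  have h7 : ((Ideal.Quotient.mk Q).comp (Int.castRingHom (𝓞 L)))
      (W.coeff (∑ k, ∑ σ : E k →+* L, (m k - u k σ))) = 0 := by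
    obtain ⟨w, hw⟩ := hdvd
    rw [hw, RingHom.comp_apply, map_mul, map_mul]
    have h8 : (Ideal.Quotient.mk Q) ((Int.castRingHom (𝓞 L)) (p : ℤ)) = 0 := by
      rw [Ideal.Quotient.eq_zero_iff_mem]
      simpa using hpQ
    rw [h8, zero_mul]
  rw [h7] at h5
  have hdom : IsDomain (𝓞 L ⧸ Q) := Ideal.Quotient.isDomain Q
  obtain ⟨x, -, hx⟩ := Finset.prod_eq_zero_iff.1 h5.symm
  obtain ⟨k, σ⟩ := x
  simp only [hf, ha, coeff_map, RingHom.comp_apply] at hx
  rw [Ideal.Quotient.eq_zero_iff_mem] at hx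
  exact hu k σ hx

theorem asm_fin (hemb : ∀ k, Nat.card (E k →+* L) = Module.finrank ℚ (E k)) (k : κ) :
    Finite (E k →+* L) := by
  have h0 : Module.finrank ℚ (E k) ≠ 0 := Module.finrank_pos.ne'
  rw [← hemb k] at h0
  exact (Nat.card_ne_zero.1 h0).2

/-- the middle coefficient is prime to `p` -/
theorem asm_unit {K : Type} [Field K] [Algebra K L] {s : L ≃ₐ[K] L} {ι : ∀ k, E k →+* E k}
    {m j : κ → ℕ} {r : ∀ k, (E k →+* L) → ℕ} (h : ∀ k, IsType s (ι k) (m k) (j k) (r k))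
    (g : ℕ) (hg : 2 * g = ∑ k, m k * Module.finrank ℚ (E k)) (p N : ℕ) (Q : Ideal (𝓞 L))
    (hQ : Q.IsPrime) (hpQ : (p : 𝓞 L) ∈ Q) (W : ℤ[X]) (P : ∀ k, (𝓞 (E k))[X])
    (hF : ∀ k, IsFactor p N (m k) Q (r k) (P k))
    (hW : W.map (Int.castRingHom ℂ) =
      ∏ k, ∏ τ : E k →+* ℂ, (P k).map (τ.comp (algebraMap (𝓞 (E k)) (E k))))
    (hu : ∀ k, ∀ σ : E k →+* L, RingOfIntegers.mapRingHom σ ((P k).coeff (m k - r k σ)) ∉ Q) :
    ¬ (p : ℤ) ∣ W.coeff g := by
  classical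
  have hfin := asm_fin (fun k => (h k).emb)
  let _ : ∀ k, Fintype (E k →+* L) := fun k => Fintype.ofFinite _
  have h1 := asm_gen (fun k => (h k).emb) r p Q hQ hpQ W P hW hu (by
    intro k σ i hi him
    exact Ideal.pow_le_self (by omega : i - r k σ ≠ 0) ((hF k).hodge σ i him))
  have hsum : ∑ k, ∑ σ : E k →+* L, (m k - r k σ) = g := by
    have h6 : 2 * ∑ k, ∑ σ : E k →+* L, (m k - r k σ) = 2 * g := by
      rw [hg, Finset.mul_sum]
      exact Finset.sum_congr rfl fun k _ => asm_sum (h k)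
    omega
  rwa [hsum] at h1

end Pool.Agent.H35.OT
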