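import Pool.Agent.H7.OR.Cx

/-! Complex monic polynomials with roots of equal absolute value: all coefficients. -/

set_option autoImplicit false

namespace Pool.Agent.H35.OT

open Polynomial Pool.Agent.H7.OR

theorem cg_eqall {κ : Type*} (s : Finset κ) (a : κ → ℂ) (R : ℝ) (ha : ∀ i ∈ s, ‖a i‖ ^ 2 = R)
    (h : ‖∑ i ∈ s, a i‖ ^ 2 = (s.card : ℝ) ^ 2 * R) : ∀ i ∈ s, ∀ j ∈ s, a i = a j := by
  have hzero : ∑ i ∈ s, ∑ j ∈ s, Complex.normSq (a i - a j) = 0 := by
    have hterm : ∀ i ∈ s, ∑ j ∈ s, Complex.normSq (a i - a j)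
        = 2 * (s.card : ℝ) * R - 2 * (a i * (starRingEnd ℂ) (∑ j ∈ s, a j)).re := by
      intro i hi
      have h1 : ∀ j ∈ s, Complex.normSq (a i - a j) = 2 * R - 2 * (a i * (starRingEnd ℂ) (a j)).re := by
        intro j hj
        rw [Complex.normSq_sub, Complex.normSq_eq_norm_sq, Complex.normSq_eq_norm_sq, ha i hi, ha j hj]
        ring
      rw [Finset.sum_congr rfl h1, Finset.sum_sub_distrib, Finset.sum_const, nsmul_eq_mul,
        ← Finset.mul_sum, ← Complex.re_sum, ← Finset.mul_sum, ← map_sum]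
      ring
    rw [Finset.sum_congr rfl hterm, Finset.sum_sub_distrib, Finset.sum_const, nsmul_eq_mul,
      ← Finset.mul_sum, ← Complex.re_sum, ← Finset.sum_mul, Complex.mul_conj, Complex.ofReal_re,
      Complex.normSq_eq_norm_sq, h]
    ring
  intro i hi j hj
  have h3 := (Finset.sum_eq_zero_iff_of_nonneg
    (fun p _ => Finset.sum_nonneg (fun q _ => Complex.normSq_nonneg _))).1 hzero i hi
  have h4 := (Finset.sum_eq_zero_iff_of_nonneg (fun p _ => Complex.normSq_nonneg _)).1 h3 j hj
  exact sub_eq_zero.1 (Complex.normSq_eq_zero.1 h4)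

theorem cg_coeff {m : ℕ} (α : Fin m → ℂ) (i : ℕ) (hi : i ≤ m) :
    (∏ k, (X - C (α k))).coeff (m - i) =
      (-1) ^ i * ∑ T ∈ Finset.powersetCard i (Finset.univ : Finset (Fin m)), ∏ k ∈ T, α k := by
  have h1 : (∏ k, (X - C (α k))) = (((Finset.univ : Finset (Fin m)).val.map α).map fun t => X - C t).prod := by
    rw [Multiset.map_map]
    rfl
  have hc : Multiset.card ((Finset.univ : Finset (Fin m)).val.map α) = m := by
    simp
  rw [h1, Multiset.prod_X_sub_C_coeff _ (by rw [hc]; omega), hc, Finset.esymm_map_val]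
  have h2 : m - (m - i) = i := by omega
  rw [h2]

theorem cg_dual (P : ℂ[X]) (hP : P.Monic) (m : ℕ) (hd : P.natDegree = m) (r : ℝ)
    (h : ∀ z : ℂ, P.IsRoot z → ‖z‖ ^ 2 = r) (i : ℕ) (hi : i ≤ m) :
    (starRingEnd ℂ) (P.coeff (m - i)) * P.coeff 0 = (r : ℂ) ^ i * P.coeff i := by
  obtain ⟨α, hα, hroot⟩ := CxAux.exists_roots P hP m hd
  have hn : ∀ k, (starRingEnd ℂ) (α k) * α k = r := by
    intro k
    rw [mul_comm, Complex.mul_conj, Complex.normSq_eq_norm_sq, h _ (hroot k)]
  have c0 : P.coeff 0 = (-1) ^ m * ∏ k, α k := by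
    have := cg_coeff α m le_rfl
    rw [← hα, Nat.sub_self] at this
    rw [this, show Finset.powersetCard m (Finset.univ : Finset (Fin m)) = {Finset.univ} by
      have h1 := Finset.powersetCard_self (Finset.univ : Finset (Fin m))
      rwa [Finset.card_univ, Fintype.card_fin] at h1]
    simp
  have c1 := cg_coeff α i hi
  have c2 := cg_coeff α (m - i) (by omega)
  rw [← hα] at c1 c2
  have h3 : m - (m - i) = i := by omega
  rw [h3] at c2
  rw [c1, c2, c0, map_mul, map_pow, map_neg, map_one, map_sum]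
  have hsum : (∑ T ∈ Finset.powersetCard i (Finset.univ : Finset (Fin m)),
      (starRingEnd ℂ) (∏ k ∈ T, α k)) * ∏ k, α k =
      (r : ℂ) ^ i * ∑ T ∈ Finset.powersetCard (m - i) (Finset.univ : Finset (Fin m)), ∏ k ∈ T, α k := by
    rw [Finset.sum_mul, Finset.mul_sum]
    refine Finset.sum_nbij' (fun T => Tᶜ) (fun T => Tᶜ) ?_ ?_ ?_ ?_ ?_
    · intro T hT
      rw [Finset.mem_powersetCard] at hT ⊢
      refine ⟨Finset.subset_univ _, ?_⟩
      rw [Finset.card_compl, Fintype.card_fin, hT.2]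
    · intro T hT
      rw [Finset.mem_powersetCard] at hT ⊢
      refine ⟨Finset.subset_univ _, ?_⟩
      rw [Finset.card_compl, Fintype.card_fin, hT.2]
      omega
    · intro T _
      exact compl_compl T
    · intro T _
      exact compl_compl T
    · intro T hT
      rw [Finset.mem_powersetCard] at hT
      rw [map_prod, ← Finset.prod_mul_prod_compl T α, ← mul_assoc, ← Finset.prod_mul_distrib,
        Finset.prod_congr rfl (fun k _ => hn k), Finset.prod_const, hT.2]
  calc (-1) ^ i * (∑ T ∈ Finset.powersetCard i (Finset.univ : Finset (Fin m)),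
        (starRingEnd ℂ) (∏ k ∈ T, α k)) * ((-1) ^ m * ∏ k, α k)
      = ((-1) ^ i * (-1) ^ m) * ((∑ T ∈ Finset.powersetCard i (Finset.univ : Finset (Fin m)),
        (starRingEnd ℂ) (∏ k ∈ T, α k)) * ∏ k, α k) := by ring
    _ = _ := by
      rw [hsum]
      have h4 : ((-1 : ℂ) ^ i * (-1) ^ m) = (-1) ^ (m - i) := by
        rw [← pow_add, show i + m = (m - i) + 2 * i by omega, pow_add, pow_mul]
        simp
      rw [h4]
      ring

theorem cg_all (P : ℂ[X]) (hP : P.Monic) (m : ℕ) (hd : P.natDegree = m) (j : ℕ) (hj : 0 < j)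
    (hjm : j < m) (r : ℝ) (hr : 0 < r) (h : ∀ z : ℂ, P.IsRoot z → ‖z‖ ^ 2 = r)
    (h1 : ‖P.coeff (m - j)‖ ^ 2 = ((m.choose j : ℕ) : ℝ) ^ 2 * r ^ j) :
    (m : ℂ) ^ m * P.coeff 0 = P.coeff (m - 1) ^ m ∧ ‖P.coeff (m - 1)‖ ^ 2 = (m : ℝ) ^ 2 * r := by
  classical
  obtain ⟨α, hα, hroot⟩ := CxAux.exists_roots P hP m hd
  have hn : ∀ k, ‖α k‖ ^ 2 = r := fun k => h _ (hroot k)
  have hne : ∀ k, α k ≠ 0 := by
    intro k h0
    have := hn k
    rw [h0] at this
    simp at this
    linarith
  have c1 := cg_coeff α j hjm.le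
  rw [← hα] at c1
  have hT : ∀ T ∈ Finset.powersetCard j (Finset.univ : Finset (Fin m)), ‖∏ k ∈ T, α k‖ ^ 2 = r ^ j := by
    intro T hT
    rw [Finset.mem_powersetCard] at hT
    rw [norm_prod, ← Finset.prod_pow, Finset.prod_congr rfl (fun k _ => hn k), Finset.prod_const, hT.2]
  have hsum : ‖∑ T ∈ Finset.powersetCard j (Finset.univ : Finset (Fin m)), ∏ k ∈ T, α k‖ ^ 2 =
      ((Finset.powersetCard j (Finset.univ : Finset (Fin m))).card : ℝ) ^ 2 * r ^ j := by
    rw [c1, norm_mul, norm_pow, norm_neg, norm_one, one_pow, one_mul] at h1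
    rw [h1, Finset.card_powersetCard, Finset.card_univ, Fintype.card_fin]
  have key := cg_eqall _ _ _ hT hsum
  have heq : ∀ a b : Fin m, α a = α b := by
    intro a b
    by_cases hab : a = b
    · rw [hab]
    -- a set of size `j - 1` avoiding `a`, `b`
    have hcard : j - 1 ≤ ((Finset.univ : Finset (Fin m)) \ {a, b}).card := by
      rw [Finset.card_sdiff_of_subset (Finset.subset_univ _), Finset.card_univ, Fintype.card_fin,
        Finset.card_pair hab]
      omega
    obtain ⟨U, hU, hUc⟩ := Finset.exists_subset_card_eq hcard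
    have haU : a ∉ U := fun h => by
      have := hU h
      simp at this
    have hbU : b ∉ U := fun h => by
      have := hU h
      simp at this
    have hA : insert a U ∈ Finset.powersetCard j (Finset.univ : Finset (Fin m)) := by
      rw [Finset.mem_powersetCard]
      exact ⟨Finset.subset_univ _, by rw [Finset.card_insert_of_notMem haU]; omega⟩
    have hB : insert b U ∈ Finset.powersetCard j (Finset.univ : Finset (Fin m)) := by
      rw [Finset.mem_powersetCard]
      exact ⟨Finset.subset_univ _, by rw [Finset.card_insert_of_notMem hbU]; omega⟩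
    have h2 := key _ hA _ hB
    rw [Finset.prod_insert haU, Finset.prod_insert hbU] at h2
    exact mul_right_cancel₀ (Finset.prod_ne_zero_iff.2 fun k _ => hne k) h2
  let i0 : Fin m := ⟨0, by omega⟩
  obtain ⟨-, e1, -⟩ := CxAux.coeffs α (Finset.univ : Finset (Fin m))
  rw [Finset.card_univ, Fintype.card_fin, ← hα] at e1
  have e2 := e1 (m - 1) (by omega)
  have hsum : ∑ i, α i = (m : ℂ) * α i0 := by
    rw [Finset.sum_congr rfl (fun i _ => heq i i0), Finset.sum_const, Finset.card_univ,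
      Fintype.card_fin, nsmul_eq_mul]
  have hc0 : P.coeff 0 = (- α i0) ^ m := by
    rw [hα, CxAux.coeff_zero, Finset.prod_congr rfl (fun i _ => by rw [heq i i0]), Finset.prod_const,
      Finset.card_univ, Fintype.card_fin]
  constructor
  · rw [hc0, e2, hsum, ← mul_pow]
    congr 1
    ring
  · rw [e2, hsum, norm_neg, norm_mul, mul_pow, hn i0, Complex.norm_natCast]

end Pool.Agent.H35.OT
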