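import Pool.Agent.H7.OR.Defs

/-! Frobenius polynomials of abelian varieties with multiplication, and their types: definitions. -/

set_option autoImplicit false

namespace Pool.Agent.H35.OT

open Polynomial NumberField

/-- The polynomial `P` with coefficients in the integers of the number field `E` is monic of degree
`m`, its roots under every complex embedding of `E` have absolute value `p ^ (w / 2)`, and it is
congruent to `(X - 1) ^ m` modulo `N`. -/
structure IsWeil {E : Type} [Field E] [NumberField E] (p N m w : ℕ) (P : (𝓞 E)[X]) : Prop where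
  monic : P.Monic
  deg : P.natDegree = m
  pure : ∀ τ : E →+* ℂ, ∀ z : ℂ,
    (P.map (τ.comp (algebraMap (𝓞 E) E))).IsRoot z → ‖z‖ ^ 2 = (p : ℝ) ^ w
  level : P.map (Ideal.Quotient.mk (Ideal.span {(N : 𝓞 E)})) = (X - 1) ^ m

/-- Types of abelian varieties with multiplication by a field `E` which is totally real or has complex
multiplication: all `[E:ℚ]` embeddings `σ` of `E` lie in `L`, the map `ι : E → E` induces complex
conjugation under every complex embedding, and `r σ` is the multiplicity of the slope `0` of the Hodge
polygon at `σ`; so `r σ + r (σ ι) = m`, the rank, and `r` is invariant under `s`. The embedding `σ` is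
definite if `r σ = 0` or `r σ = m`. At the other embeddings `r σ` is `j` or `m - j`, and every
non-empty set of embeddings with `r σ = j` which is stable under `s` (and under `ι` if `2 * j = m`)
has at least `j * n / 2` elements, where `n` is the number of non-definite embeddings. -/
structure IsType {K E L : Type} [Field K] [Field E] [NumberField E] [Field L] [Algebra K L]
    (s : L ≃ₐ[K] L) (ι : E →+* E) (m j : ℕ) (r : (E →+* L) → ℕ) : Prop where
  emb : Nat.card (E →+* L) = Module.finrank ℚ E
  conj : ∀ (τ : E →+* ℂ) (x : E), τ (ι x) = (starRingEnd ℂ) (τ x)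
  dual : ∀ σ : E →+* L, r σ + r (σ.comp ι) = m
  inv : ∀ σ : E →+* L, r ((s : L →+* L).comp σ) = r σ
  type : ∀ σ : E →+* L, 0 < r σ → r σ < m → 0 < j ∧ 2 * j ≤ m ∧ (r σ = j ∨ r σ + j = m)
  big : ∀ B : Set (E →+* L), B.Nonempty →
    (∀ σ ∈ B, r σ = j ∧ (s : L →+* L).comp σ ∈ B) → (2 * j = m → ∀ σ ∈ B, σ.comp ι ∈ B) →
    j * {σ : E →+* L | 0 < r σ ∧ r σ < m}.ncard ≤ 2 * B.ncard

/-- `P` can be the `E`-linear characteristic polynomial of the Frobenius of an abelian variety over
`𝔽_p`, with rational `N`-torsion, which is a reduction modulo (a prime below) `Q` of an abelian variety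
of type `(m, r)`: it is pure of weight one, congruent to `(X - 1) ^ m` modulo `N`, and at every
embedding `σ : E → L` its Newton polygon with respect to `Q` lies above the Hodge polygon with slope
`0` of multiplicity `r σ` and slope `1` of multiplicity `m - r σ`. -/
structure IsFactor {E L : Type} [Field E] [NumberField E] [Field L] [NumberField L]
    (p N m : ℕ) (Q : Ideal (𝓞 L)) (r : (E →+* L) → ℕ) (P : (𝓞 E)[X]) : Prop where
  weil : IsWeil p N m 1 P
  hodge : ∀ σ : E →+* L, ∀ i ≤ m,
    RingOfIntegers.mapRingHom σ (P.coeff (m - i)) ∈ Q ^ (i - r σ)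

end Pool.Agent.H35.OT
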