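import Pool.Agent.H35.OT.Asm

/-! Positive density of the places of ordinary reduction. -/

set_option autoImplicit false

namespace Pool.Agent.H35.OT

open Polynomial NumberField IsDedekindDomain Pool.Agent.H7.OR

theorem fin_stable {K L : Type} [Field K] [NumberField K] [Field L] [NumberField L] [Algebra K L]
    (v : HeightOneSpectrum (𝓞 K)) (hv : (plNorm v).Prime) (Q : Ideal (𝓞 L)) (φ s : L ≃ₐ[K] L)
    (hφ : IsFrob v Q φ) (hz : Subgroup.zpowers φ = Subgroup.zpowers s) :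
    ∀ x ∈ Q, RingOfIntegers.mapRingHom (s : L →+* L) x ∈ Q := by
  have hφQ : ∀ x ∈ Q, RingOfIntegers.mapRingHom (φ : L →+* L) x ∈ Q := by
    intro x hx
    have h1 := hφ.2.2 x (RingOfIntegers.mapRingHom (φ : L →+* L) x) rfl
    have h2 := Q.add_mem h1 (Ideal.pow_mem_of_mem Q hx _ hv.pos)
    rwa [sub_add_cancel] at h2
  have hfin : IsOfFinOrder φ := isOfFinOrder_of_finite φ
  have hs : s ∈ Subgroup.zpowers φ := by rw [hz]; exact Subgroup.mem_zpowers s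
  obtain ⟨n, hn⟩ := (hfin.mem_powers_iff_mem_zpowers).2 hs
  have hn' : φ ^ n = s := hn
  have key : ∀ n : ℕ, ∀ x ∈ Q, RingOfIntegers.mapRingHom ((φ ^ n : L ≃ₐ[K] L) : L →+* L) x ∈ Q := by
    intro n
    induction n with
    | zero =>
      intro x hx
      have : RingOfIntegers.mapRingHom ((φ ^ 0 : L ≃ₐ[K] L) : L →+* L) x = x := by
        apply RingOfIntegers.coe_injective
        rfl
      rw [this]
      exact hx
    | succ n ih =>
      intro x hx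
      have : RingOfIntegers.mapRingHom ((φ ^ (n + 1) : L ≃ₐ[K] L) : L →+* L) x =
          RingOfIntegers.mapRingHom ((φ ^ n : L ≃ₐ[K] L) : L →+* L)
            (RingOfIntegers.mapRingHom (φ : L →+* L) x) := by
        apply RingOfIntegers.coe_injective
        have h1 : (φ ^ (n + 1)) (x : L) = (φ ^ n) (φ (x : L)) := by
          rw [pow_succ, AlgEquiv.mul_apply]
        exact h1
      rw [this]
      exact ih _ (hφQ x hx)
  rw [← hn']
  exact key n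

/-- from a statement at the places of large prime norm to finiteness of the exceptions and
positive density -/
theorem fin_wrap {K L : Type} [Field K] [NumberField K] [Field L] [NumberField L] [Algebra K L]
    [IsGalois K L] (s : L ≃ₐ[K] L) (S : Set (HeightOneSpectrum (𝓞 K))) (hS : S.Finite) (D : ℕ)
    (A : HeightOneSpectrum (𝓞 K) → Prop)
    (h : ∀ v ∉ S, (plNorm v).Prime → ¬ ((plNorm v : ℝ) ≤ D) → ∀ (Q : Ideal (𝓞 L)) (φ : L ≃ₐ[K] L),
      IsFrob v Q φ → Subgroup.zpowers φ = Subgroup.zpowers s → A v) :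
    {v : HeightOneSpectrum (𝓞 K) | v ∉ S ∧ (plNorm v).Prime ∧
      (∃ (Q : Ideal (𝓞 L)) (φ : L ≃ₐ[K] L), IsFrob v Q φ ∧
        Subgroup.zpowers φ = Subgroup.zpowers s) ∧ ¬ A v}.Finite ∧
    PosDensity {v : HeightOneSpectrum (𝓞 K) | v ∉ S ∧ (plNorm v).Prime ∧ A v} := by
  constructor
  · refine (pl_finite K D).subset ?_
    rintro v ⟨hvS, hpr, ⟨Q, φ, hφ, hz⟩, hA⟩
    by_contra hcon
    exact hA (h v hvS hpr hcon Q φ hφ hz)
  · refine base_mono ?_ (frob_density s _ (base_bad S hS D))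
    rintro v ⟨hv, hpr, Q, φ, hφ, hz⟩
    simp only [Set.mem_union, not_or, Set.mem_ofPred_eq] at hv
    exact ⟨hv.1, hpr, h v hv.1 hpr hv.2 Q φ hφ hz⟩

theorem fin_prod {κ : Type} [Fintype κ] (m : κ → ℕ) : ∃ M : ℕ, 1 ≤ M ∧ ∀ k, m k ≠ 0 → m k ∣ M := by
  classical
  refine ⟨∏ k, (if m k = 0 then 1 else m k), ?_, ?_⟩
  · rw [Nat.one_le_iff_ne_zero, Finset.prod_ne_zero_iff]
    intro k _
    split_ifs with h0
    · exact one_ne_zero
    · exact h0
  · intro k hk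
    have h2 : (if m k = 0 then 1 else m k) ∣ ∏ k, (if m k = 0 then 1 else m k) :=
      Finset.dvd_prod_of_mem _ (Finset.mem_univ k)
    rwa [if_neg hk] at h2

theorem fin_main {K L κ : Type} [Field K] [NumberField K] [Field L] [NumberField L] [Algebra K L]
    [IsGalois K L] [Fintype κ] {E : κ → Type} [∀ k, Field (E k)] [∀ k, NumberField (E k)]
    (s : L ≃ₐ[K] L) (ι : ∀ k, E k →+* E k) (m j : κ → ℕ) (r : ∀ k, (E k →+* L) → ℕ)
    (h : ∀ k, IsType s (ι k) (m k) (j k) (r k)) (N : ℕ)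
    (hN : ∀ k, 2 * (m k).choose (j k) ^ Module.finrank ℚ (E k) < N)
    (g : ℕ) (hg : 2 * g = ∑ k, m k * Module.finrank ℚ (E k))
    (S : Set (HeightOneSpectrum (𝓞 K))) (hS : S.Finite) (W : HeightOneSpectrum (𝓞 K) → ℤ[X])
    (hW : ∀ v ∉ S, (plNorm v).Prime → ∀ (Q : Ideal (𝓞 L)) (φ : L ≃ₐ[K] L), IsFrob v Q φ →
      Subgroup.zpowers φ = Subgroup.zpowers s → N ∣ plNorm v - 1 ∧
      ∃ P : ∀ k, (𝓞 (E k))[X], (∀ k, IsFactor (plNorm v) N (m k) Q (r k) (P k)) ∧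
        (W v).map (Int.castRingHom ℂ) =
          ∏ k, ∏ τ : E k →+* ℂ, (P k).map (τ.comp (algebraMap (𝓞 (E k)) (E k)))) :
    {v : HeightOneSpectrum (𝓞 K) | v ∉ S ∧ (plNorm v).Prime ∧
      (∃ (Q : Ideal (𝓞 L)) (φ : L ≃ₐ[K] L), IsFrob v Q φ ∧
        Subgroup.zpowers φ = Subgroup.zpowers s) ∧
      ¬ ¬ ((plNorm v : ℕ) : ℤ) ∣ (W v).coeff g}.Finite ∧
    PosDensity {v : HeightOneSpectrum (𝓞 K) | v ∉ S ∧ (plNorm v).Prime ∧
      ¬ ((plNorm v : ℕ) : ℤ) ∣ (W v).coeff g} := by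
  obtain ⟨Δ, hΔ, hun⟩ := un_exists L
  obtain ⟨M, hM1, hM⟩ := fin_prod m
  have hn : 1 ≤ Δ * M := Nat.one_le_iff_ne_zero.2 (by positivity)
  refine fin_wrap s S hS (Δ * M) _ ?_
  intro v hvS hpr hvn Q φ hφ hz
  obtain ⟨hNp, P, hF, hWv⟩ := hW v hvS hpr Q φ hφ hz
  set p := plNorm v with hp
  have hp1 : ¬ p ∣ Δ := base_not_dvd hn ⟨M, rfl⟩ hvn
  have hp2 : ∀ k, m k ≠ 0 → ¬ p ∣ m k := fun k hk hdvd =>
    base_not_dvd hn ⟨Δ, mul_comm _ _⟩ hvn (hdvd.trans (hM k hk))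
  have hpQ : (p : 𝓞 L) ∈ Q := base_prime_mem hφ
  have hQun : (p : 𝓞 L) ∉ Q ^ 2 := (hun p hpr hp1).2 Q hφ.1 hpQ
  have hst := fin_stable v hpr Q φ s hφ hz
  exact asm_unit h g hg p N Q hφ.1 hpQ (W v) P hF hWv
    (fun k σ => pt_unit (h k) (hF k) hφ.1 hpr hpQ hQun (hp2 k) (hN k) hNp hst σ)

end Pool.Agent.H35.OT
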