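import Pool.Agent.H35.OT.Fin

/-! Weight two: pieces with at most one unit root at every embedding. -/

set_option autoImplicit false

namespace Pool.Agent.H35.OT

open Polynomial NumberField IsDedekindDomain Pool.Agent.H7.OR

/-- an integer of `E` all of whose conjugates in `L` lie in `Q` is divisible by `p` -/
theorem k3_dvd {E L : Type} [Field E] [NumberField E] [Field L] [NumberField L]
    (hE : Nat.card (E →+* L) = Module.finrank ℚ E) (p : ℕ) (hp : p.Prime) (Q : Ideal (𝓞 L))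
    (hQ : Q.IsPrime) (hpQ : (p : 𝓞 L) ∈ Q)
    (hun : ∀ x : 𝓞 E, (∀ 𝔭 : Ideal (𝓞 E), 𝔭.IsPrime → (p : 𝓞 E) ∈ 𝔭 → x ∈ 𝔭) → (p : 𝓞 E) ∣ x)
    (c : 𝓞 E) (hc : ∀ σ : E →+* L, RingOfIntegers.mapRingHom σ c ∈ Q) : (p : 𝓞 E) ∣ c := by
  apply hun
  intro 𝔭 h𝔭 hp𝔭
  obtain ⟨i, hi⟩ := in_emb E hE p hp Q hQ hpQ 𝔭 h𝔭 hp𝔭
  have h0 : 𝔭 ≠ ⊥ := by
    rintro rfl
    rw [Ideal.mem_bot] at hp𝔭
    exact hp.ne_zero (by exact_mod_cast hp𝔭)
  have hmax : 𝔭.IsMaximal := h𝔭.isMaximal h0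
  have hpr : (Q.comap (RingOfIntegers.mapRingHom i)).IsPrime := Ideal.comap_isPrime _ Q
  have h1 := hmax.eq_of_le hpr.ne_top hi
  rw [h1, Ideal.mem_comap]
  exact hc i

/-- if the first coefficient is never a unit then all roots are equal to `p` -/
theorem k3_scalar {E L : Type} [Field E] [NumberField E] [Field L] [NumberField L]
    {p N m : ℕ} {Q : Ideal (𝓞 L)} {P : (𝓞 E)[X]}
    (hE : Nat.card (E →+* L) = Module.finrank ℚ E) (hF : IsWeil p N m 2 P)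
    (hQ : Q.IsPrime) (hp : p.Prime) (hpQ : (p : 𝓞 L) ∈ Q)
    (hun : ∀ x : 𝓞 E, (∀ 𝔭 : Ideal (𝓞 E), 𝔭.IsPrime → (p : 𝓞 E) ∈ 𝔭 → x ∈ 𝔭) → (p : 𝓞 E) ∣ x)
    (hN : 2 * m < N) (hNp : N ∣ p - 1) (hm : 1 ≤ m)
    (hall : ∀ σ : E →+* L, RingOfIntegers.mapRingHom σ (P.coeff (m - 1)) ∈ Q) :
    P = (X - C (p : 𝓞 E)) ^ m := by
  set c := P.coeff (m - 1) with hc
  obtain ⟨d, hd⟩ := k3_dvd hE p hp Q hQ hpQ hun c hall
  have hp0 : (0 : ℝ) < p := by exact_mod_cast hp.pos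
  have hmon : ∀ τ : E →+* ℂ, (tmap τ P).Monic := fun τ => hF.monic.map _
  have hnd : ∀ τ : E →+* ℂ, (tmap τ P).natDegree = m := by
    intro τ
    rw [tmap, hF.monic.natDegree_map, hF.deg]
  have hroot : ∀ τ : E →+* ℂ, ∀ z, (tmap τ P).IsRoot z → ‖z‖ = (p : ℝ) := by
    intro τ z hz
    have h1 := hF.pure τ z hz
    exact (sq_eq_sq₀ (norm_nonneg _) hp0.le).1 h1
  have hdτ : ∀ τ : E →+* ℂ, ‖τ (d : E)‖ ≤ m := by
    intro τ
    have h1 := base_coeff (tmap τ P) (hmon τ) (p : ℝ) (fun z hz => (hroot τ z hz).le) (m - 1)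
    rw [hnd τ, tmap_coeff, show m - (m - 1) = 1 by omega, pow_one, Nat.choose_symm (by omega : 1 ≤ m),
      Nat.choose_one_right, ← hc, hd] at h1
    have h2 : (((p : 𝓞 E) * d : 𝓞 E) : E) = (p : E) * (d : E) := by simp
    rw [h2, map_mul, map_natCast, norm_mul, Complex.norm_natCast] at h1
    exact le_of_mul_le_mul_left h1 hp0
  have hlev : (N : 𝓞 E) ∣ c + (m : 𝓞 E) := by
    rw [← Ideal.mem_span_singleton, ← Ideal.Quotient.eq_zero_iff_mem, map_add, map_natCast]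
    have h1 := congrArg (fun q => Polynomial.coeff q (m - 1)) hF.level
    simp only [coeff_map] at h1
    rw [hc, h1, show ((X : (𝓞 E ⧸ Ideal.span {(N : 𝓞 E)})[X]) - 1) = X + C (-1) by simp [sub_eq_add_neg],
      coeff_X_add_C_pow, show m - (m - 1) = 1 by omega, Nat.choose_symm (by omega : 1 ≤ m)]
    simp
  have hNp' : (N : 𝓞 E) ∣ (p : 𝓞 E) - 1 := by
    obtain ⟨w, hw⟩ := hNp
    refine ⟨(w : 𝓞 E), ?_⟩
    have h1 : (p : 𝓞 E) = ((p - 1 + 1 : ℕ) : 𝓞 E) := by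
      congr 1
      have := hp.one_lt
      omega
    rw [h1, hw]
    push_cast
    ring
  have hdiv : (N : 𝓞 E) ∣ d + (m : 𝓞 E) := by
    have h1 : d + (m : 𝓞 E) = (c + m) - (p - 1) * d := by rw [hd]; ring
    rw [h1]
    exact dvd_sub hlev (hNp'.mul_right _)
  have hdm : d + (m : 𝓞 E) = 0 := by
    apply un_small E N _ hdiv
    intro τ
    have h1 : ((d + (m : 𝓞 E) : 𝓞 E) : E) = (d : E) + (m : E) := by simp
    rw [h1, map_add, map_natCast]
    have h2 : ((2 * m : ℕ) : ℝ) < N := by exact_mod_cast hN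
    push_cast at h2
    calc ‖τ (d : E) + (m : ℂ)‖ ≤ ‖τ (d : E)‖ + ‖(m : ℂ)‖ := norm_add_le _ _
      _ ≤ m + m := by
          rw [Complex.norm_natCast]
          linarith [hdτ τ]
      _ < N := by linarith
  obtain ⟨τ⟩ : Nonempty (E →+* ℂ) := inferInstance
  have hinj : Function.Injective (τ.comp (algebraMap (𝓞 E) E)) :=
    τ.injective.comp RingOfIntegers.coe_injective
  apply map_injective _ hinj
  have h1 := cx_lin (tmap τ P) (hmon τ) m (hnd τ) hm (p : ℝ) hp0.le (hroot τ) (by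
    rw [tmap_coeff, ← hc, hd, eq_neg_of_add_eq_zero_left hdm]
    have h2 : (((p : 𝓞 E) * -(m : 𝓞 E) : 𝓞 E) : E) = (p : E) * -(m : E) := by simp
    rw [h2, map_mul, map_neg, map_natCast, map_natCast]
    push_cast
    ring)
  rw [tmap] at h1
  rw [h1, Polynomial.map_pow, Polynomial.map_sub, map_X, map_C]
  simp

/-- unit roots at one prime -/
theorem k3_point {K E L : Type} [Field K] [Field E] [NumberField E] [Field L] [NumberField L]
    [Algebra K L] {s : L ≃ₐ[K] L} {p N m : ℕ} {Q : Ideal (𝓞 L)} {P : (𝓞 E)[X]}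
    (hE : Nat.card (E →+* L) = Module.finrank ℚ E) (O : Set (E →+* L)) (f : ℕ) (hf0 : f ≤ O.ncard)
    (hf : ∀ B ⊆ O, B.Nonempty → (∀ σ ∈ B, (s : L →+* L).comp σ ∈ B) → f ≤ B.ncard)
    (hF : IsWeil p N m 2 P) (hroots : ∀ σ ∉ O, RingOfIntegers.mapRingHom σ (P.coeff (m - 1)) ∈ Q)
    (hne : O.Nonempty → P ≠ (X - C (p : 𝓞 E)) ^ m)
    (hQ : Q.IsPrime) (hp : p.Prime) (hpQ : (p : 𝓞 L) ∈ Q)
    (hun : ∀ x : 𝓞 E, (∀ 𝔭 : Ideal (𝓞 E), 𝔭.IsPrime → (p : 𝓞 E) ∈ 𝔭 → x ∈ 𝔭) → (p : 𝓞 E) ∣ x)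
    (hN : 2 * m < N) (hNp : N ∣ p - 1)
    (hg : ∀ g ∈ Subgroup.zpowers s, ∀ x ∈ Q, RingOfIntegers.mapRingHom ((g : L ≃ₐ[K] L) : L →+* L) x ∈ Q)
    [Fintype (E →+* L)] :
    ∃ u : (E →+* L) → ℕ, (∀ σ, u σ ≤ m) ∧ (∀ σ, RingOfIntegers.mapRingHom σ (P.coeff (m - u σ)) ∉ Q) ∧
      (∀ σ i, u σ < i → i ≤ m → RingOfIntegers.mapRingHom σ (P.coeff (m - i)) ∈ Q) ∧
      f ≤ ∑ σ, u σ := by
  classical
  have hP0 : ∀ σ : E →+* L, RingOfIntegers.mapRingHom σ (P.coeff (m - 0)) ∉ Q := by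
    intro σ
    have hlead : P.coeff m = 1 := by
      have := hF.monic.coeff_natDegree
      rwa [hF.deg] at this
    rw [Nat.sub_zero, hlead, map_one]
    exact fun h => hQ.ne_top ((Ideal.eq_top_iff_one _).2 h)
  set u : (E →+* L) → ℕ := fun σ =>
    Nat.findGreatest (fun i => RingOfIntegers.mapRingHom σ (P.coeff (m - i)) ∉ Q) m with hu
  refine ⟨u, fun σ => Nat.findGreatest_le m, fun σ => ?_, fun σ i hi him => ?_, ?_⟩
  · exact Nat.findGreatest_spec (P := fun i => RingOfIntegers.mapRingHom σ (P.coeff (m - i)) ∉ Q)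
      (Nat.zero_le m) (hP0 σ)
  · by_contra hcon
    exact Nat.findGreatest_is_greatest (P := fun i => RingOfIntegers.mapRingHom σ (P.coeff (m - i)) ∉ Q)
      hi him hcon
  rcases Set.eq_empty_or_nonempty O with hO | hO
  · rw [hO, Set.ncard_empty] at hf0
    omega
  have hm : 1 ≤ m := by
    rw [Nat.one_le_iff_ne_zero]
    intro h0
    apply hne hO
    rw [h0, pow_zero]
    exact hF.monic.natDegree_eq_zero.1 (by rw [hF.deg, h0])
  set B : Set (E →+* L) := {σ | RingOfIntegers.mapRingHom σ (P.coeff (m - 1)) ∉ Q} with hB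
  have hBO : B ⊆ O := by
    intro σ hσ
    by_contra hcon
    exact hσ (hroots σ hcon)
  have hBne : B.Nonempty := by
    by_contra hcon
    rw [Set.not_nonempty_iff_eq_empty] at hcon
    apply hne hO
    apply k3_scalar hE hF hQ hp hpQ hun hN hNp hm
    intro σ
    by_contra h1
    have h2 : σ ∈ B := h1
    rw [hcon] at h2
    exact h2
  have hBs : ∀ σ ∈ B, (s : L →+* L).comp σ ∈ B := by
    intro σ hσ hcon
    apply hσ
    have h1 := hg s⁻¹ ((Subgroup.zpowers s).inv_mem (Subgroup.mem_zpowers s)) _ hcon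
    have h2 : RingOfIntegers.mapRingHom ((s⁻¹ : L ≃ₐ[K] L) : L →+* L)
        (RingOfIntegers.mapRingHom ((s : L →+* L).comp σ) (P.coeff (m - 1))) =
        RingOfIntegers.mapRingHom σ (P.coeff (m - 1)) := by
      apply RingOfIntegers.coe_injective
      exact AlgEquiv.symm_apply_apply s (σ _)
    rw [h2] at h1
    exact h1
  have h3 := hf B hBO hBne hBs
  have h4 : B.ncard = (Finset.univ.filter fun σ : E →+* L => σ ∈ B).card := by
    rw [← Set.ncard_coe_finset]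
    congr 1
    ext σ
    simp
  rw [h4, Finset.card_filter] at h3
  refine h3.trans (Finset.sum_le_sum fun σ _ => ?_)
  split_ifs with h5
  · exact Nat.le_findGreatest hm h5
  · exact Nat.zero_le _

end Pool.Agent.H35.OT
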