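import Pool.Agent.H35.OT.Defs

/-! Pieces of the second cohomology: definitions. -/

set_option autoImplicit false

namespace Pool.Agent.H35.OT

open Polynomial NumberField

/-- `P` can be the `E`-linear characteristic polynomial of the Frobenius of `𝔽_p` on a piece of rank `m`
over `E` of the second cohomology of the reduction modulo (a prime below) `Q` of a variety `X`, where
`O` is the set of the embeddings `σ : E → L` at which the piece contributes to `H²(X, 𝒪_X)`: it is pure
of weight two, congruent to `(X - 1) ^ m` modulo `N`, at the embeddings outside `O` the sum of the roots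
is not a unit at `Q`, and it is not `(X - p) ^ m` if `O` is not empty. -/
structure IsPiece {E L : Type} [Field E] [NumberField E] [Field L] [NumberField L]
    (p N m : ℕ) (Q : Ideal (𝓞 L)) (O : Set (E →+* L)) (P : (𝓞 E)[X]) : Prop where
  weil : IsWeil p N m 2 P
  roots : ∀ σ ∉ O, RingOfIntegers.mapRingHom σ (P.coeff (m - 1)) ∈ Q
  ne : O.Nonempty → P ≠ (X - C (p : 𝓞 E)) ^ m

end Pool.Agent.H35.OT
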