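import Pool.Agent.H35.OT.Defs

/-! Lower bound for the `p`-rank with real multiplication: definition. -/

set_option autoImplicit false

namespace Pool.Agent.H35.OT

/-- The lower bound for the `p`-rank of an abelian variety with real multiplication by a field of
degree `e`, of rank `m` over it, at places where all primes above `p` of the field have degree at least
`f`. -/
def prBound (e f m : ℕ) : ℕ :=
  if m ≤ 1 then 0 else (if e ≤ 2 * f then e else e / 2 + 1) + if m = 2 then 0 else f

end Pool.Agent.H35.OT
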