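import Pool.Agent.H35.OT.Fin
import Pool.Agent.H35.OT.PrDefs

/-! The `p`-rank of abelian varieties with real multiplication. -/

set_option autoImplicit false

namespace Pool.Agent.H35.OT

open Polynomial NumberField IsDedekindDomain Pool.Agent.H7.OR

theorem pr_stable {K L : Type} [Field K] [NumberField K] [Field L] [NumberField L] [Algebra K L]
    (v : HeightOneSpectrum (𝓞 K)) (hv : (plNorm v).Prime) (Q : Ideal (𝓞 L)) (φ s : L ≃ₐ[K] L)
    (hφ : IsFrob v Q φ) (hz : Subgroup.zpowers φ = Subgroup.zpowers s) :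
    ∀ g ∈ Subgroup.zpowers s, ∀ x ∈ Q, RingOfIntegers.mapRingHom ((g : L ≃ₐ[K] L) : L →+* L) x ∈ Q := by
  have h1 := fin_stable v hv Q φ s hφ hz
  intro g hg
  have hfin : IsOfFinOrder s := isOfFinOrder_of_finite s
  obtain ⟨n, hn⟩ := (hfin.mem_powers_iff_mem_zpowers).2 hg
  have hn' : s ^ n = g := hn
  rw [← hn']
  clear hn hn' hg g
  induction n with
  | zero =>
    intro x hx
    have : RingOfIntegers.mapRingHom ((s ^ 0 : L ≃ₐ[K] L) : L →+* L) x = x := by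
      apply RingOfIntegers.coe_injective
      rfl
    rw [this]
    exact hx
  | succ n ih =>
    intro x hx
    have : RingOfIntegers.mapRingHom ((s ^ (n + 1) : L ≃ₐ[K] L) : L →+* L) x =
        RingOfIntegers.mapRingHom ((s ^ n : L ≃ₐ[K] L) : L →+* L)
          (RingOfIntegers.mapRingHom (s : L →+* L) x) := by
      apply RingOfIntegers.coe_injective
      have h1 : (s ^ (n + 1)) (x : L) = (s ^ n) (s (x : L)) := by
        rw [pow_succ, AlgEquiv.mul_apply]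
      exact h1
    rw [this]
    exact ih _ (h1 x hx)

section

variable {K E L : Type} [Field K] [Field E] [NumberField E] [Field L] [NumberField L] [Algebra K L]
  {s : L ≃ₐ[K] L} {m : ℕ} {p N : ℕ} {Q : Ideal (𝓞 L)} {P : (𝓞 E)[X]}

theorem pr_mem [Fintype (E →+* L)] (hE : Nat.card (E →+* L) = Module.finrank ℚ E) (c : 𝓞 E)
    (B : Finset (E →+* L)) (hB : ∀ σ ∈ B, RingOfIntegers.mapRingHom σ c ∈ Q) :
    ((Algebra.norm ℤ c : ℤ) : 𝓞 L) ∈ Q ^ B.card := by
  classical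
  rw [in_prod E hE c, ← Finset.prod_mul_prod_compl B]
  apply Ideal.mul_mem_right
  rw [← Finset.prod_const]
  exact Ideal.prod_mem_prod hB

/-- not all roots are equal -/
theorem pr_ne (hreal : ∀ (τ : E →+* ℂ) (x : E), (starRingEnd ℂ) (τ x) = τ x) (hF : IsWeil p N m 1 P)
    (hp : p.Prime) (hpm : ¬ p ∣ m)
    (hram : ∀ 𝔭 : Ideal (𝓞 E), 𝔭.IsPrime → (p : 𝓞 E) ∈ 𝔭 → (p : 𝓞 E) ∉ 𝔭 ^ 2) (j : ℕ) (hj : 0 < j)
    (hjm : j < m)
    (h : ∀ τ : E →+* ℂ, ‖τ ((P.coeff (m - j) : 𝓞 E) : E)‖ ^ 2 = ((m.choose j : ℕ) : ℝ) ^ 2 * (p : ℝ) ^ j) :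
    False := by
  obtain ⟨τ⟩ : Nonempty (E →+* ℂ) := inferInstance
  have hp0 : (0 : ℝ) < p := by exact_mod_cast hp.pos
  have hmon : (tmap τ P).Monic := hF.monic.map _
  have hnd : (tmap τ P).natDegree = m := by rw [tmap, hF.monic.natDegree_map, hF.deg]
  have h1 := (cg_all (tmap τ P) hmon m hnd j hj hjm (p : ℝ) hp0 (fun z hz => by
    have := hF.pure τ z hz
    rwa [pow_one] at this) (by
      rw [tmap_coeff]
      exact h τ)).2
  rw [tmap_coeff] at h1
  apply un_sq E p m hp hpm hram (P.coeff (m - 1))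
  have hinj : Function.Injective (fun x : 𝓞 E => τ (x : E)) :=
    τ.injective.comp RingOfIntegers.coe_injective
  apply hinj
  simp only
  have e1 : ((P.coeff (m - 1) ^ 2 : 𝓞 E) : E) = ((P.coeff (m - 1) : 𝓞 E) : E) ^ 2 := by simp
  have e2 : (((m : 𝓞 E) ^ 2 * p : 𝓞 E) : E) = (m : E) ^ 2 * (p : E) := by simp
  rw [e1, e2, map_mul, map_pow, map_pow, map_natCast, map_natCast]
  have h2 : τ ((P.coeff (m - 1) : 𝓞 E) : E) ^ 2 = ((‖τ ((P.coeff (m - 1) : 𝓞 E) : E)‖ ^ 2 : ℝ) : ℂ) := by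
    rw [← Complex.normSq_eq_norm_sq, ← Complex.mul_conj, hreal, pow_two]
  rw [h2, h1]
  push_cast
  ring

theorem pr_point [NumberField K] (hE : Nat.card (E →+* L) = Module.finrank ℚ E)
    (hreal : ∀ (τ : E →+* ℂ) (x : E), (starRingEnd ℂ) (τ x) = τ x) (hF : IsWeil p N m 1 P)
    (hQ : Q.IsPrime) (hp : p.Prime) (hpQ : (p : 𝓞 L) ∈ Q) (hun : (p : 𝓞 L) ∉ Q ^ 2)
    (hpm : m ≠ 0 → ¬ p ∣ m)
    (hram : ∀ 𝔭 : Ideal (𝓞 E), 𝔭.IsPrime → (p : 𝓞 E) ∈ 𝔭 → (p : 𝓞 E) ∉ 𝔭 ^ 2)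
    (hN : ∀ j ≤ 2, 2 * m.choose j ^ Module.finrank ℚ E < N) (hNp : N ∣ p - 1)
    (hg : ∀ g ∈ Subgroup.zpowers s, ∀ x ∈ Q, RingOfIntegers.mapRingHom ((g : L ≃ₐ[K] L) : L →+* L) x ∈ Q)
    (f : ℕ) (hf : ∀ σ : E →+* L, f ≤ (embOrbit s σ).ncard) [Fintype (E →+* L)] :
    ∃ u : (E →+* L) → ℕ, (∀ σ, u σ ≤ m) ∧ (∀ σ, RingOfIntegers.mapRingHom σ (P.coeff (m - u σ)) ∉ Q) ∧
      (∀ σ i, u σ < i → i ≤ m → RingOfIntegers.mapRingHom σ (P.coeff (m - i)) ∈ Q) ∧
      prBound (Module.finrank ℚ E) f m ≤ ∑ σ, u σ := by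
  classical
  set e := Module.finrank ℚ E with he
  have hcard : Fintype.card (E →+* L) = e := by rw [← Nat.card_eq_fintype_card]; exact hE
  have hpure : ∀ τ : E →+* ℂ, ∀ z : ℂ, (tmap τ P).IsRoot z → ‖z‖ ^ 2 = (p : ℝ) := by
    intro τ z hz
    have := hF.pure τ z hz
    rwa [pow_one] at this
  have hP0 : ∀ σ : E →+* L, RingOfIntegers.mapRingHom σ (P.coeff (m - 0)) ∉ Q := by
    intro σ
    have hlead : P.coeff m = 1 := by
      have := hF.monic.coeff_natDegree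
      rwa [hF.deg] at this
    rw [Nat.sub_zero, hlead, map_one]
    exact fun h => hQ.ne_top ((Ideal.eq_top_iff_one _).2 h)
  set u : (E →+* L) → ℕ := fun σ =>
    Nat.findGreatest (fun i => RingOfIntegers.mapRingHom σ (P.coeff (m - i)) ∉ Q) m with hu
  refine ⟨u, fun σ => Nat.findGreatest_le m, fun σ => ?_, fun σ i hi him => ?_, ?_⟩
  · exact Nat.findGreatest_spec (P := fun i => RingOfIntegers.mapRingHom σ (P.coeff (m - i)) ∉ Q)
      (Nat.zero_le m) (hP0 σ)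
  · by_contra hcon
    exact Nat.findGreatest_is_greatest (P := fun i => RingOfIntegers.mapRingHom σ (P.coeff (m - i)) ∉ Q)
      hi him hcon
  -- the bound
  rw [prBound]
  by_cases hm1 : m ≤ 1
  · rw [if_pos hm1]
    exact Nat.zero_le _
  rw [if_neg hm1]
  have hm0 : m ≠ 0 := by omega
  have hpm' := hpm hm0
  have horb : ∀ (i : ℕ) (σ σ' : E →+* L), σ' ∈ embOrbit s σ →
      RingOfIntegers.mapRingHom σ (P.coeff i) ∈ Q → RingOfIntegers.mapRingHom σ' (P.coeff i) ∈ Q := by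
    rintro i σ σ' ⟨g, hgs, hi⟩ hσ
    have h3 := hg g hgs _ hσ
    have h4 : RingOfIntegers.mapRingHom σ' (P.coeff i) =
        RingOfIntegers.mapRingHom ((g : L ≃ₐ[K] L) : L →+* L)
          (RingOfIntegers.mapRingHom σ (P.coeff i)) := by
      apply RingOfIntegers.coe_injective
      exact hi _
    rw [h4]
    exact h3
  have hsymm : ∀ σ σ' : E →+* L, σ' ∈ embOrbit s σ → σ ∈ embOrbit s σ' := by
    rintro σ σ' ⟨g, hgs, hi⟩
    refine ⟨g⁻¹, (Subgroup.zpowers s).inv_mem hgs, fun x => ?_⟩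
    rw [hi x]
    exact (AlgEquiv.symm_apply_apply g (σ x)).symm
  set B1 : Finset (E →+* L) :=
    Finset.univ.filter (fun σ => RingOfIntegers.mapRingHom σ (P.coeff (m - 1)) ∈ Q) with hB1
  have hB1c : 2 * B1.card < e := by
    by_contra hcon
    push Not at hcon
    have h1 := nb hE p N m 1 Q P hF.monic hF.deg hpure hF.level hQ hp hpQ hun (hN 1 (by norm_num)) hNp
      (by omega) B1.card (by rw [one_mul]; exact hcon) (pr_mem hE _ B1 (fun σ hσ => by
        rw [hB1, Finset.mem_filter] at hσ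
        exact hσ.2))
    exact pr_ne hreal hF hp hpm' hram 1 one_pos (by omega) h1
  have hu1 : ∀ σ, σ ∉ B1 → 1 ≤ u σ := by
    intro σ hσ
    rw [hB1, Finset.mem_filter, not_and] at hσ
    exact Nat.le_findGreatest (by omega) (hσ (Finset.mem_univ _))
  have hempty : e ≤ 2 * f → B1.card = 0 := by
    intro h2
    rw [Finset.card_eq_zero]
    by_contra hcon
    obtain ⟨σ, hσ⟩ := Finset.nonempty_iff_ne_empty.2 hcon
    have hsub : embOrbit s σ ⊆ (B1 : Set (E →+* L)) := by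
      intro i hi
      rw [hB1, Finset.coe_filter]
      rw [hB1, Finset.mem_filter] at hσ
      exact ⟨Finset.mem_univ _, horb _ σ i hi hσ.2⟩
    have h3 := Set.ncard_le_ncard hsub (Finset.finite_toSet _)
    rw [Set.ncard_coe_finset] at h3
    have h4 := hf σ
    omega
  have hT1 : (if e ≤ 2 * f then e else e / 2 + 1) ≤ e - B1.card := by
    split_ifs with h2
    · rw [hempty h2]
      omega
    · omega
  obtain ⟨O2, hO2, hO2c⟩ : ∃ O2 : Finset (E →+* L), (∀ σ ∈ O2, 2 ≤ u σ) ∧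
      (if m = 2 then 0 else f) ≤ O2.card := by
    by_cases hm2 : m = 2
    · exact ⟨∅, by simp, by rw [if_pos hm2]; exact Nat.zero_le _⟩
    rw [if_neg hm2]
    obtain ⟨σ₂, hσ₂⟩ : ∃ σ : E →+* L, RingOfIntegers.mapRingHom σ (P.coeff (m - 2)) ∉ Q := by
      by_contra hcon
      push Not at hcon
      have h1 := nb hE p N m 2 Q P hF.monic hF.deg hpure hF.level hQ hp hpQ hun (hN 2 le_rfl) hNp
        (by omega) (Finset.univ : Finset (E →+* L)).card (by rw [Finset.card_univ, hcard])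
        (pr_mem hE _ Finset.univ (fun σ _ => hcon σ))
      exact pr_ne hreal hF hp hpm' hram 2 two_pos (by omega) h1
    refine ⟨(embOrbit s σ₂).toFinite.toFinset, ?_, ?_⟩
    · intro σ hσ
      rw [Set.Finite.mem_toFinset] at hσ
      refine Nat.le_findGreatest (by omega) ?_
      intro hcon
      exact hσ₂ (horb _ σ σ₂ (hsymm σ₂ σ hσ) hcon)
    · rw [← Set.ncard_eq_toFinset_card]
      exact hf σ₂
  have hsum : ∑ σ : E →+* L, ((if σ ∈ B1 then 0 else 1) + (if σ ∈ O2 then 1 else 0)) ≤ ∑ σ, u σ := by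
    refine Finset.sum_le_sum fun σ _ => ?_
    by_cases h1 : σ ∈ O2
    · have := hO2 σ h1
      rw [if_pos h1]
      split_ifs <;> omega
    · rw [if_neg h1]
      split_ifs with h2
      · exact Nat.zero_le _
      · exact hu1 σ h2
  rw [Finset.sum_add_distrib] at hsum
  have h5 : ∑ σ : E →+* L, (if σ ∈ B1 then 0 else 1) = e - B1.card := by
    have h7 : ∑ σ : E →+* L, (if σ ∈ B1 then 1 else 0) = B1.card := by
      rw [Finset.sum_ite_mem]
      simp
    have h8 : ∑ σ : E →+* L, ((if σ ∈ B1 then 0 else 1) + (if σ ∈ B1 then 1 else 0)) = e := by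
      rw [← hcard, ← Finset.card_univ, Finset.card_eq_sum_ones]
      refine Finset.sum_congr rfl fun σ _ => ?_
      split_ifs <;> rfl
    rw [Finset.sum_add_distrib, h7] at h8
    omega
  have h6 : ∑ σ : E →+* L, (if σ ∈ O2 then 1 else 0) = O2.card := by
    rw [Finset.sum_ite_mem]
    simp
  omega

end

end Pool.Agent.H35.OT
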