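import Pool.Agent.H7.OR.Defs

/-! Sets of places of density zero: definition. -/

set_option autoImplicit false

namespace Pool.Agent.H35.OT

open NumberField IsDedekindDomain Pool.Agent.H7.OR

/-- The set `S` of finite places of `K` has density zero: for every `c > 0`, for all large `x`, at most
the proportion `c` of the places of norm at most `x` lies in `S`. -/
def ZeroDensity {K : Type} [Field K] [NumberField K] (S : Set (HeightOneSpectrum (𝓞 K))) : Prop :=
  ∀ c : ℝ, 0 < c → ∀ᶠ x : ℝ in Filter.atTop,
    (Set.ncard {v : HeightOneSpectrum (𝓞 K) | v ∈ S ∧ (plNorm v : ℝ) ≤ x} : ℝ) ≤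
      c * (Set.ncard {v : HeightOneSpectrum (𝓞 K) | (plNorm v : ℝ) ≤ x} : ℝ)

end Pool.Agent.H35.OT
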