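import Pool.Agent.H7.OR.Pl
import Pool.Agent.H7.OR.Base
import Pool.Agent.H35.OT.Zd

/-! Removing a set of density zero. -/

set_option autoImplicit false

namespace Pool.Agent.H35.OT

open NumberField IsDedekindDomain Pool.Agent.H7.OR

theorem zd_diff {K : Type} [Field K] [NumberField K] {A Z : Set (HeightOneSpectrum (𝓞 K))}
    (hA : PosDensity A) (hZ : ZeroDensity Z) :
    PosDensity {v : HeightOneSpectrum (𝓞 K) | v ∈ A ∧ v ∉ Z} := by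
  obtain ⟨c, hc, h⟩ := hA
  refine ⟨c / 2, by positivity, ?_⟩
  filter_upwards [h, hZ (c / 2) (by positivity)] with x h1 h2
  have hfin := pl_finite K x
  have h3 : Set.ncard {v : HeightOneSpectrum (𝓞 K) | v ∈ A ∧ (plNorm v : ℝ) ≤ x} ≤
      Set.ncard {v : HeightOneSpectrum (𝓞 K) | v ∈ {v | v ∈ A ∧ v ∉ Z} ∧ (plNorm v : ℝ) ≤ x} +
      Set.ncard {v : HeightOneSpectrum (𝓞 K) | v ∈ Z ∧ (plNorm v : ℝ) ≤ x} := by
    refine le_trans (Set.ncard_le_ncard ?_ ?_) (Set.ncard_union_le _ _)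
    · rintro v ⟨hvA, hvx⟩
      by_cases hvZ : v ∈ Z
      · exact Or.inr ⟨hvZ, hvx⟩
      · exact Or.inl ⟨⟨hvA, hvZ⟩, hvx⟩
    · exact (hfin.subset fun v hv => hv.2).union (hfin.subset fun v hv => hv.2)
  have h4 : (Set.ncard {v : HeightOneSpectrum (𝓞 K) | v ∈ A ∧ (plNorm v : ℝ) ≤ x} : ℝ) ≤
      (Set.ncard {v : HeightOneSpectrum (𝓞 K) | v ∈ {v | v ∈ A ∧ v ∉ Z} ∧ (plNorm v : ℝ) ≤ x} : ℝ) +
      (Set.ncard {v : HeightOneSpectrum (𝓞 K) | v ∈ Z ∧ (plNorm v : ℝ) ≤ x} : ℝ) := by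
    exact_mod_cast h3
  have h5 : c / 2 * (Set.ncard {v : HeightOneSpectrum (𝓞 K) | (plNorm v : ℝ) ≤ x} : ℝ) ≤
      (Set.ncard {v : HeightOneSpectrum (𝓞 K) | v ∈ {v | v ∈ A ∧ v ∉ Z} ∧ (plNorm v : ℝ) ≤ x} :
        ℝ) := by
    linarith
  exact h5

end Pool.Agent.H35.OT
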