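import Pool.Agent.H35.OT.K3
import Pool.Agent.H35.OT.K3Defs
import Pool.Agent.H35.OT.Pr
import Pool.Agent.H35.OT.ZdA

/-! Positive density of the places where the second cohomology has many unit roots. -/

set_option autoImplicit false

namespace Pool.Agent.H35.OT

open Polynomial NumberField IsDedekindDomain Pool.Agent.H7.OR

theorem k3_fin {K L κ : Type} [Field K] [NumberField K] [Field L] [NumberField L] [Algebra K L]
    [IsGalois K L] [Fintype κ] {E : κ → Type} [∀ k, Field (E k)] [∀ k, NumberField (E k)]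
    (s : L ≃ₐ[K] L) (m f : κ → ℕ) (O : ∀ k, Set (E k →+* L))
    (hE : ∀ k, Nat.card (E k →+* L) = Module.finrank ℚ (E k))
    (hf0 : ∀ k, f k ≤ (O k).ncard)
    (hf : ∀ k, ∀ B ⊆ O k, B.Nonempty → (∀ σ ∈ B, (s : L →+* L).comp σ ∈ B) → f k ≤ B.ncard)
    (N : ℕ) (hN : ∀ k, 2 * m k < N) (b : ℕ) (hb : b = ∑ k, m k * Module.finrank ℚ (E k))
    (S : Set (HeightOneSpectrum (𝓞 K))) (hS : ZeroDensity S) (W : HeightOneSpectrum (𝓞 K) → ℤ[X])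
    (hW : ∀ v ∉ S, (plNorm v).Prime → ∀ (Q : Ideal (𝓞 L)) (φ : L ≃ₐ[K] L), IsFrob v Q φ →
      Subgroup.zpowers φ = Subgroup.zpowers s → N ∣ plNorm v - 1 ∧
      ∃ P : ∀ k, (𝓞 (E k))[X], (∀ k, IsPiece (plNorm v) N (m k) Q (O k) (P k)) ∧
        (W v).map (Int.castRingHom ℂ) =
          ∏ k, ∏ τ : E k →+* ℂ, (P k).map (τ.comp (algebraMap (𝓞 (E k)) (E k)))) :
    PosDensity {v : HeightOneSpectrum (𝓞 K) | v ∉ S ∧ (plNorm v).Prime ∧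
      ∃ i, i + ∑ k, f k ≤ b ∧ ¬ ((plNorm v : ℕ) : ℤ) ∣ (W v).coeff i} := by
  classical
  have hfin := asm_fin hE
  let _ : ∀ k, Fintype (E k →+* L) := fun k => Fintype.ofFinite _
  have hun : ∀ k, ∃ Δ : ℕ, 1 ≤ Δ ∧ ∀ p : ℕ, p.Prime → ¬ p ∣ Δ →
      (∀ x : 𝓞 (E k), (∀ 𝔭 : Ideal (𝓞 (E k)), 𝔭.IsPrime → (p : 𝓞 (E k)) ∈ 𝔭 → x ∈ 𝔭) →
        (p : 𝓞 (E k)) ∣ x) := by
    intro k
    obtain ⟨Δ, h1, h2⟩ := un_exists (E k)
    exact ⟨Δ, h1, fun p hp hd => (h2 p hp hd).1⟩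
  choose Δ hΔ hunΔ using hun
  obtain ⟨M, hM1, hM⟩ := fin_prod Δ
  refine base_mono ?_ (zd_diff (fin_wrap s ∅ Set.finite_empty M (fun v => v ∉ S →
    ∃ i, i + ∑ k, f k ≤ b ∧ ¬ ((plNorm v : ℕ) : ℤ) ∣ (W v).coeff i) ?_).2 hS)
  · rintro v ⟨⟨_, hpr, hA⟩, hvS⟩
    exact ⟨hvS, hpr, hA hvS⟩
  intro v _ hpr hvn Q φ hφ hz hvS
  obtain ⟨hNp, P, hF, hWv⟩ := hW v hvS hpr Q φ hφ hz
  set p := plNorm v with hp
  have hp1 : ∀ k, ¬ p ∣ Δ k := fun k hdvd =>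
    base_not_dvd hM1 (hdvd.trans (hM k (by have := hΔ k; omega))) hvn dvd_rfl
  have hpQ : (p : 𝓞 L) ∈ Q := base_prime_mem hφ
  have hst := pr_stable v hpr Q φ s hφ hz
  have key : ∀ k, ∃ u : (E k →+* L) → ℕ, (∀ σ, u σ ≤ m k) ∧
      (∀ σ, RingOfIntegers.mapRingHom σ ((P k).coeff (m k - u σ)) ∉ Q) ∧
      (∀ σ i, u σ < i → i ≤ m k → RingOfIntegers.mapRingHom σ ((P k).coeff (m k - i)) ∈ Q) ∧
      f k ≤ ∑ σ, u σ := fun k =>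
    k3_point (hE k) (O k) (f k) (hf0 k) (hf k) (hF k).weil (hF k).roots (hF k).ne hφ.1 hpr hpQ
      (hunΔ k p hpr (hp1 k)) (hN k) hNp hst
  choose u hu1 hu2 hu3 hu4 using key
  refine ⟨∑ k, ∑ σ : E k →+* L, (m k - u k σ), ?_, asm_gen hE u p Q hφ.1 hpQ (W v) P hWv hu2
    (fun k σ i hi him => hu3 k σ i hi him)⟩
  have h1 : ∑ k, ∑ σ : E k →+* L, (m k - u k σ) + ∑ k, ∑ σ : E k →+* L, u k σ = b := by
    rw [hb, ← Finset.sum_add_distrib]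
    refine Finset.sum_congr rfl fun k _ => ?_
    rw [← Finset.sum_add_distrib, Finset.sum_congr rfl (fun σ _ => Nat.sub_add_cancel (hu1 k σ)),
      Finset.sum_const, Finset.card_univ, ← Nat.card_eq_fintype_card, hE k, smul_eq_mul, mul_comm]
  have h2 : ∑ k, f k ≤ ∑ k, ∑ σ : E k →+* L, u k σ := Finset.sum_le_sum fun k _ => hu4 k
  omega

end Pool.Agent.H35.OT
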