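import Pool.Agent.H7.OR.Base2
import Pool.Agent.H35.OT.Cg
import Pool.Agent.H35.OT.Defs

/-! Local lemmas: powers of an unramified prime, norms. -/

set_option autoImplicit false

namespace Pool.Agent.H35.OT

open Polynomial NumberField Pool.Agent.H7.OR

theorem loc_pow {L : Type} [Field L] [NumberField L] (Q : Ideal (𝓞 L)) (hQ : Q.IsPrime) (p : ℕ)
    (hp : p ≠ 0) (hpQ : (p : 𝓞 L) ∈ Q) (hun : (p : 𝓞 L) ∉ Q ^ 2) (a : ℕ) (x : 𝓞 L) (hx : x ∉ Q) :
    (p : 𝓞 L) ^ a * x ∉ Q ^ (a + 1) := by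
  intro h
  rw [mul_comm] at h
  have h1 := (Ideal.IsPrime.mul_mem_pow Q h).resolve_left hx
  have hQ0 : Q ≠ ⊥ := by
    rintro rfl
    rw [Ideal.mem_bot] at hpQ
    exact hp (by exact_mod_cast hpQ)
  obtain ⟨J, hJ⟩ := Ideal.dvd_iff_le.2 ((Ideal.span_singleton_le_iff_mem Q).2 hpQ)
  have hQJ : ¬ Q ∣ J := by
    rintro ⟨J', hJ'⟩
    apply hun
    rw [hJ', ← mul_assoc] at hJ
    have : Ideal.span {(p : 𝓞 L)} ≤ Q ^ 2 := by
      rw [hJ, pow_two]
      exact Ideal.mul_le_left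
    exact (Ideal.span_singleton_le_iff_mem _).1 this
  have h2 : Q ^ (a + 1) ∣ Q ^ a * J ^ a := by
    rw [← mul_pow, ← hJ, Ideal.span_singleton_pow, Ideal.dvd_iff_le, Ideal.span_singleton_le_iff_mem]
    exact h1
  rw [pow_succ] at h2
  have hQp : Prime Q := (Ideal.prime_iff_isPrime hQ0).2 hQ
  have h3 : Q ∣ J ^ a := (mul_dvd_mul_iff_left (pow_ne_zero a hQ0)).1 h2
  exact hQJ (hQp.dvd_of_dvd_pow h3)

theorem loc_dvd {L : Type} [Field L] [NumberField L] (Q : Ideal (𝓞 L)) (hQ : Q.IsPrime) (p : ℕ)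
    (hp : p.Prime) (hpQ : (p : 𝓞 L) ∈ Q) (hun : (p : 𝓞 L) ∉ Q ^ 2) (k : ℕ) (n : ℤ)
    (hn : (n : 𝓞 L) ∈ Q ^ k) : (p : ℤ) ^ k ∣ n := by
  by_cases h0 : n = 0
  · rw [h0]; exact dvd_zero _
  by_contra hcon
  obtain ⟨a, ha, hle⟩ : ∃ a, (p : ℤ) ^ a ∣ n ∧ ¬ (p : ℤ) ^ (a + 1) ∣ n ∧ a < k := by
    classical
    have hex : ∃ a, ¬ (p : ℤ) ^ a ∣ n := ⟨k, hcon⟩
    have h1 := Nat.find_spec hex
    have h2 : Nat.find hex ≤ k := Nat.find_min' hex hcon
    have h3 : Nat.find hex ≠ 0 := by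
      intro h
      rw [h] at h1
      exact h1 (by simp)
    obtain ⟨b, hb⟩ := Nat.exists_eq_succ_of_ne_zero h3
    refine ⟨b, ?_, ?_, ?_⟩
    · by_contra h4
      have := Nat.find_min' hex h4
      omega
    · rw [← Nat.succ_eq_add_one, ← hb]; exact h1
    · omega
  obtain ⟨u, hu⟩ := ha
  have hu' : ¬ (p : ℤ) ∣ u := by
    rintro ⟨w, hw⟩
    apply hle.1
    exact ⟨w, by rw [hu, hw, pow_succ]; ring⟩
  have huQ : (u : 𝓞 L) ∉ Q := fun h => hu' (in_int Q hQ.ne_top p hp hpQ u h)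
  have h5 := loc_pow Q hQ p hp.ne_zero hpQ hun a (u : 𝓞 L) huQ
  apply h5
  have h6 : (p : 𝓞 L) ^ a * (u : 𝓞 L) = (n : 𝓞 L) := by
    rw [hu]; push_cast; ring
  rw [h6]
  exact Ideal.pow_le_pow_right (by omega) hn

/-- an integer divisible by `N` in `𝓞 L` is divisible by `N` -/
theorem loc_int {L : Type} [Field L] [NumberField L] (N : ℕ) (n : ℤ) (h : (N : 𝓞 L) ∣ (n : 𝓞 L)) :
    (N : ℤ) ∣ n := by
  by_cases hN : N = 0
  · subst hN
    rw [Nat.cast_zero, zero_dvd_iff] at h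
    rw [Nat.cast_zero, zero_dvd_iff]
    exact_mod_cast h
  obtain ⟨y, hy⟩ := h
  have h1 : IsIntegral ℤ ((n : ℚ) / N) := by
    have h2 : (algebraMap ℚ L) ((n : ℚ) / N) = (y : L) := by
      have h3 := congrArg (fun z : 𝓞 L => (z : L)) hy
      simp only [map_intCast, map_mul, map_natCast] at h3
      have hN' : (N : L) ≠ 0 := by exact_mod_cast hN
      rw [map_div₀, map_intCast, map_natCast, h3]
      field_simp
    have h4 : IsIntegral ℤ ((algebraMap ℚ L) ((n : ℚ) / N)) := by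
      rw [h2]
      exact RingOfIntegers.isIntegral_coe y
    exact (isIntegral_algHom_iff ((algebraMap ℚ L).toIntAlgHom) (algebraMap ℚ L).injective).1 h4
  obtain ⟨w, hw⟩ := IsIntegrallyClosed.isIntegral_iff.1 h1
  refine ⟨w, ?_⟩
  have hN' : (N : ℚ) ≠ 0 := by exact_mod_cast hN
  have h5 : (n : ℚ) = N * w := by
    rw [eq_div_iff hN'] at hw
    rw [← hw]
    simp [mul_comm]
  exact_mod_cast h5

/-- congruence of norms -/
theorem loc_norm {E L : Type} [Field E] [NumberField E] [Field L] [NumberField L]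
    (hE : Nat.card (E →+* L) = Module.finrank ℚ E) (N : ℕ) (x : 𝓞 E) (y : ℤ)
    (h : (N : 𝓞 E) ∣ x - (y : 𝓞 E)) : (N : ℤ) ∣ Algebra.norm ℤ x - y ^ Module.finrank ℚ E := by
  classical
  have hfin : Finite (E →+* L) := by
    have h0 : Module.finrank ℚ E ≠ 0 := Module.finrank_pos.ne'
    rw [← hE] at h0
    exact (Nat.card_ne_zero.1 h0).2
  let _ := Fintype.ofFinite (E →+* L)
  apply loc_int (L := L)
  have h1 : ((Algebra.norm ℤ x - y ^ Module.finrank ℚ E : ℤ) : 𝓞 L) =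
      (∏ i : E →+* L, RingOfIntegers.mapRingHom i x) - ∏ i : E →+* L, (y : 𝓞 L) := by
    rw [Finset.prod_const, Finset.card_univ, ← Nat.card_eq_fintype_card, hE, ← in_prod E hE x]
    push_cast
    ring
  rw [h1]
  have h2 : ∀ s : Finset (E →+* L), (N : 𝓞 L) ∣ (∏ i ∈ s, RingOfIntegers.mapRingHom i x) - ∏ i ∈ s, (y : 𝓞 L) := by
    intro s
    induction s using Finset.induction_on with
    | empty => simp
    | insert a s ha ih =>
      rw [Finset.prod_insert ha, Finset.prod_insert ha]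
      have h3 : (N : 𝓞 L) ∣ RingOfIntegers.mapRingHom a x - (y : 𝓞 L) := by
        obtain ⟨d, hd⟩ := h
        refine ⟨RingOfIntegers.mapRingHom a d, ?_⟩
        have := congrArg (RingOfIntegers.mapRingHom a) hd
        rw [map_sub, map_mul, map_natCast, map_intCast] at this
        exact this
      have h4 : RingOfIntegers.mapRingHom a x * (∏ i ∈ s, RingOfIntegers.mapRingHom i x) -
          (y : 𝓞 L) * ∏ i ∈ s, (y : 𝓞 L) = (RingOfIntegers.mapRingHom a x - y) *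
            (∏ i ∈ s, RingOfIntegers.mapRingHom i x) +
            y * ((∏ i ∈ s, RingOfIntegers.mapRingHom i x) - ∏ i ∈ s, (y : 𝓞 L)) := by ring
      rw [h4]
      exact dvd_add (h3.mul_right _) (ih.mul_left _)
  exact h2 Finset.univ

/-- the norm as a product of complex absolute values -/
theorem loc_cnorm {E : Type} [Field E] [NumberField E] (x : 𝓞 E) :
    ((Algebra.norm ℤ x : ℤ) : ℝ) ^ 2 = ∏ τ : E →+* ℂ, ‖τ (x : E)‖ ^ 2 := by
  have h1 := Algebra.norm_eq_prod_embeddings ℚ ℂ (x : E)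
  have h2 : (algebraMap ℚ ℂ) (Algebra.norm ℚ (x : E)) = (((Algebra.norm ℤ x : ℤ) : ℝ) : ℂ) := by
    rw [← Algebra.coe_norm_int]
    simp
  have h3 : ∏ σ : E →ₐ[ℚ] ℂ, σ (x : E) = ∏ τ : E →+* ℂ, τ (x : E) := by
    exact (Fintype.prod_equiv (RingHom.equivRatAlgHom (R := E) (S := ℂ)) _ _ (fun i => rfl)).symm
  rw [h2, h3] at h1
  have h4 : ‖((((Algebra.norm ℤ x : ℤ) : ℝ) : ℂ))‖ ^ 2 = ‖∏ τ : E →+* ℂ, τ (x : E)‖ ^ 2 := by rw [h1]
  rw [Complex.norm_real, Real.norm_eq_abs, sq_abs, norm_prod, ← Finset.prod_pow] at h4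
  exact h4

end Pool.Agent.H35.OT
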