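import Pool.Agent.H35.OT.Loc

/-! A coefficient whose norm is divisible by a high power of `p` has maximal absolute value. -/

set_option autoImplicit false

namespace Pool.Agent.H35.OT

open Polynomial NumberField Pool.Agent.H7.OR

theorem nb {E L : Type} [Field E] [NumberField E] [Field L] [NumberField L]
    (hE : Nat.card (E →+* L) = Module.finrank ℚ E) (p N m j : ℕ) (Q : Ideal (𝓞 L)) (P : (𝓞 E)[X])
    (hmonic : P.Monic) (hdeg : P.natDegree = m)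
    (hpure : ∀ τ : E →+* ℂ, ∀ z : ℂ, (tmap τ P).IsRoot z → ‖z‖ ^ 2 = (p : ℝ))
    (hlevel : P.map (Ideal.Quotient.mk (Ideal.span {(N : 𝓞 E)})) = (X - 1) ^ m)
    (hQ : Q.IsPrime) (hp : p.Prime) (hpQ : (p : 𝓞 L) ∈ Q) (hun : (p : 𝓞 L) ∉ Q ^ 2)
    (hN : 2 * m.choose j ^ Module.finrank ℚ E < N) (hNp : N ∣ p - 1) (hjm : j < m)
    (k : ℕ) (h2k : j * Module.finrank ℚ E ≤ 2 * k)
    (hmem0 : ((Algebra.norm ℤ (P.coeff (m - j)) : ℤ) : 𝓞 L) ∈ Q ^ k) (τ : E →+* ℂ) :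
    ‖τ ((P.coeff (m - j) : 𝓞 E) : E)‖ ^ 2 = ((m.choose j : ℕ) : ℝ) ^ 2 * (p : ℝ) ^ j := by
  classical
  set e := Module.finrank ℚ E with he
  set c := P.coeff (m - j) with hc
  set n := Algebra.norm ℤ c with hn
  have hmem : ((n : ℤ) : 𝓞 L) ∈ Q ^ k := hmem0
  obtain ⟨b, hb⟩ := loc_dvd Q hQ p hp hpQ hun k n hmem
  -- size
  set C := m.choose j with hC
  have hp0 : (0 : ℝ) < p := by exact_mod_cast hp.pos
  have hcτ : ∀ τ : E →+* ℂ, ‖τ (c : E)‖ ^ 2 ≤ (C : ℝ) ^ 2 * (p : ℝ) ^ j := by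
    intro τ
    have hmon : (tmap τ P).Monic := hmonic.map _
    have hnd : (tmap τ P).natDegree = m := by rw [tmap, hmonic.natDegree_map, hdeg]
    have h1 := base_coeff (tmap τ P) hmon (Real.sqrt p) (fun z hz => by
      rw [← hpure τ z hz, Real.sqrt_sq (norm_nonneg _)]) (m - j)
    rw [hnd, tmap_coeff, show m - (m - j) = j by omega, Nat.choose_symm (by omega : j ≤ m)] at h1
    calc ‖τ (c : E)‖ ^ 2 ≤ (Real.sqrt p ^ j * (m.choose j : ℕ)) ^ 2 :=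
          pow_le_pow_left₀ (norm_nonneg _) h1 2
      _ = (C : ℝ) ^ 2 * (p : ℝ) ^ j := by
          rw [mul_pow, ← pow_mul, mul_comm j 2, pow_mul, Real.sq_sqrt hp0.le]; ring
  have hEcard : Fintype.card (E →+* ℂ) = e := by
    rw [he]
    exact NumberField.Embeddings.card E ℂ
  have hle : ((n : ℤ) : ℝ) ^ 2 ≤ ((C : ℝ) ^ 2 * (p : ℝ) ^ j) ^ e := by
    rw [hn, loc_cnorm]
    calc ∏ τ : E →+* ℂ, ‖τ (c : E)‖ ^ 2 ≤ ∏ τ : E →+* ℂ, ((C : ℝ) ^ 2 * (p : ℝ) ^ j) :=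
          Finset.prod_le_prod (fun τ _ => by positivity) (fun τ _ => hcτ τ)
      _ = _ := by rw [Finset.prod_const, Finset.card_univ, hEcard]
  have hp1 : (1 : ℝ) ≤ p := by exact_mod_cast hp.one_lt.le
  have hpow_le : (p : ℝ) ^ (j * e) ≤ (p : ℝ) ^ (2 * k) := pow_le_pow_right₀ hp1 h2k
  have hexp : ((C : ℝ) ^ 2 * (p : ℝ) ^ j) ^ e = ((C : ℝ) ^ e) ^ 2 * (p : ℝ) ^ (j * e) := by
    rw [mul_pow, ← pow_mul, ← pow_mul, ← pow_mul, mul_comm 2 e]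
  have hn2 : ((n : ℤ) : ℝ) ^ 2 = (p : ℝ) ^ (2 * k) * ((b : ℤ) : ℝ) ^ 2 := by
    rw [hb]
    push_cast
    rw [mul_pow, ← pow_mul, mul_comm k 2]
  have hppos : (0 : ℝ) < (p : ℝ) ^ (2 * k) := by positivity
  have hbC : ((b : ℤ) : ℝ) ^ 2 ≤ ((C : ℝ) ^ e) ^ 2 := by
    have h1 : (p : ℝ) ^ (2 * k) * ((b : ℤ) : ℝ) ^ 2 ≤ (p : ℝ) ^ (2 * k) * ((C : ℝ) ^ e) ^ 2 := by
      rw [← hn2]
      refine hle.trans ?_
      rw [hexp, mul_comm]
      exact mul_le_mul_of_nonneg_right hpow_le (by positivity)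
    exact le_of_mul_le_mul_left h1 hppos
  have hbabs : |(b : ℤ)| ≤ (C : ℤ) ^ e := by
    have h1 : |((b : ℤ) : ℝ)| ≤ (C : ℝ) ^ e := abs_le_of_sq_le_sq hbC (by positivity)
    exact_mod_cast h1
  -- congruence
  set y : ℤ := (-1) ^ j * (C : ℤ) with hy
  have hlev : (N : 𝓞 E) ∣ c - (y : 𝓞 E) := by
    rw [← Ideal.mem_span_singleton, ← Ideal.Quotient.eq_zero_iff_mem, map_sub]
    have h1 := congrArg (fun q => Polynomial.coeff q (m - j)) hlevel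
    simp only [coeff_map] at h1
    rw [hc, h1, show ((X : (𝓞 E ⧸ Ideal.span {(N : 𝓞 E)})[X]) - 1) = X + Polynomial.C (-1) by simp [sub_eq_add_neg],
      coeff_X_add_C_pow, show m - (m - j) = j by omega, Nat.choose_symm (by omega : j ≤ m), hy]
    push_cast
    simp [hC]
  have hNn := loc_norm hE N c y hlev
  rw [← hn] at hNn
  have hyabs : |y ^ e| = (C : ℤ) ^ e := by
    rw [abs_pow, hy, abs_mul, abs_pow, abs_neg, abs_one, one_pow, one_mul]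
    simp
  have hNp' : (N : ℤ) ∣ (p : ℤ) - 1 := by
    have h1 : ((p - 1 : ℕ) : ℤ) = (p : ℤ) - 1 := by
      rw [Nat.cast_sub hp.one_lt.le]; simp
    rw [← h1]
    exact_mod_cast hNp
  have hNb : (N : ℤ) ∣ b - y ^ e := by
    have h1 : b - y ^ e = (n - y ^ e) - ((p : ℤ) ^ k - 1) * b := by rw [hb]; ring
    rw [h1]
    refine dvd_sub hNn (Dvd.dvd.mul_right ?_ _)
    exact hNp'.trans (by simpa using sub_one_dvd_pow_sub_one (p : ℤ) k)
  have hby : b = y ^ e := by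
    by_contra hne
    have h1 : b - y ^ e ≠ 0 := sub_ne_zero.2 hne
    have h2 : (N : ℤ) ≤ |b - y ^ e| := by
      have := Int.le_of_dvd (abs_pos.2 h1) ((dvd_abs _ _).2 hNb)
      exact this
    have h3 : |b - y ^ e| ≤ |b| + |y ^ e| := abs_sub _ _
    have h4 : ((2 * C ^ e : ℕ) : ℤ) < N := by exact_mod_cast hN
    push_cast at h4
    omega
  -- equality
  have hbsq : ((b : ℤ) : ℝ) ^ 2 = ((C : ℝ) ^ e) ^ 2 := by
    rw [hby]
    have h1 : (((y ^ e : ℤ) : ℝ)) ^ 2 = ((|y ^ e| : ℤ) : ℝ) ^ 2 := by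
      rw [Int.cast_abs, sq_abs]
    rw [h1, hyabs]
    push_cast
    ring
  have hCpos : 0 < C := Nat.choose_pos (by omega)
  have hCr : (0 : ℝ) < C := by exact_mod_cast hCpos
  have heq : ∏ τ : E →+* ℂ, ‖τ (c : E)‖ ^ 2 = ∏ τ : E →+* ℂ, ((C : ℝ) ^ 2 * (p : ℝ) ^ j) := by
    apply le_antisymm
    · exact Finset.prod_le_prod (fun τ _ => by positivity) (fun τ _ => hcτ τ)
    · rw [Finset.prod_const, Finset.card_univ, hEcard, ← loc_cnorm, ← hn, hn2, hbsq, hexp, mul_comm]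
      exact mul_le_mul_of_nonneg_right hpow_le (by positivity)
  have heach : ∀ τ : E →+* ℂ, ‖τ (c : E)‖ ^ 2 = (C : ℝ) ^ 2 * (p : ℝ) ^ j := by
    intro τ
    by_contra hne
    have hlt : ‖τ (c : E)‖ ^ 2 < (C : ℝ) ^ 2 * (p : ℝ) ^ j := lt_of_le_of_ne (hcτ τ) hne
    have h1 : ∏ τ : E →+* ℂ, ‖τ (c : E)‖ ^ 2 < ∏ τ : E →+* ℂ, ((C : ℝ) ^ 2 * (p : ℝ) ^ j) := by
      by_cases hz : ∃ τ' : E →+* ℂ, ‖τ' (c : E)‖ ^ 2 = 0
      · obtain ⟨τ', hτ'⟩ := hz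
        rw [Finset.prod_eq_zero (Finset.mem_univ τ') hτ']
        exact Finset.prod_pos fun _ _ => by positivity
      · push Not at hz
        exact Finset.prod_lt_prod (fun τ' _ => lt_of_le_of_ne (by positivity) (Ne.symm (hz τ')))
          (fun τ' _ => hcτ τ') ⟨τ, Finset.mem_univ _, hlt⟩
    exact h1.ne heq
  exact heach τ

end Pool.Agent.H35.OT
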