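import Pool.Agent.H35.OT.Pr

/-! Positive density of the places of large `p`-rank. -/

set_option autoImplicit false

namespace Pool.Agent.H35.OT

open Polynomial NumberField IsDedekindDomain Pool.Agent.H7.OR

theorem pr_fin {K L κ : Type} [Field K] [NumberField K] [Field L] [NumberField L] [Algebra K L]
    [IsGalois K L] [Fintype κ] {E : κ → Type} [∀ k, Field (E k)] [∀ k, NumberField (E k)]
    (s : L ≃ₐ[K] L) (m f : κ → ℕ)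
    (hE : ∀ k, Nat.card (E k →+* L) = Module.finrank ℚ (E k))
    (hreal : ∀ k, ∀ (τ : E k →+* ℂ) (x : E k), (starRingEnd ℂ) (τ x) = τ x)
    (hf : ∀ k, ∀ σ : E k →+* L, f k ≤ (embOrbit s σ).ncard) (N : ℕ)
    (hN : ∀ k, ∀ j ≤ 2, 2 * (m k).choose j ^ Module.finrank ℚ (E k) < N) (b T : ℕ)
    (hb : b = ∑ k, m k * Module.finrank ℚ (E k))
    (hT : T = ∑ k, prBound (Module.finrank ℚ (E k)) (f k) (m k))
    (S : Set (HeightOneSpectrum (𝓞 K))) (hS : S.Finite) (W : HeightOneSpectrum (𝓞 K) → ℤ[X])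
    (hW : ∀ v ∉ S, (plNorm v).Prime → ∀ (Q : Ideal (𝓞 L)) (φ : L ≃ₐ[K] L), IsFrob v Q φ →
      Subgroup.zpowers φ = Subgroup.zpowers s → N ∣ plNorm v - 1 ∧
      ∃ P : ∀ k, (𝓞 (E k))[X], (∀ k, IsWeil (plNorm v) N (m k) 1 (P k)) ∧
        (W v).map (Int.castRingHom ℂ) =
          ∏ k, ∏ τ : E k →+* ℂ, (P k).map (τ.comp (algebraMap (𝓞 (E k)) (E k)))) :
    {v : HeightOneSpectrum (𝓞 K) | v ∉ S ∧ (plNorm v).Prime ∧
      (∃ (Q : Ideal (𝓞 L)) (φ : L ≃ₐ[K] L), IsFrob v Q φ ∧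
        Subgroup.zpowers φ = Subgroup.zpowers s) ∧
      ¬ ∃ i, i + T ≤ b ∧ ¬ ((plNorm v : ℕ) : ℤ) ∣ (W v).coeff i}.Finite ∧
    PosDensity {v : HeightOneSpectrum (𝓞 K) | v ∉ S ∧ (plNorm v).Prime ∧
      ∃ i, i + T ≤ b ∧ ¬ ((plNorm v : ℕ) : ℤ) ∣ (W v).coeff i} := by
  classical
  have hfin := asm_fin hE
  let _ : ∀ k, Fintype (E k →+* L) := fun k => Fintype.ofFinite _
  obtain ⟨Δ, hΔ, hun⟩ := un_exists L
  have hun2 : ∀ k, ∃ Δ : ℕ, 1 ≤ Δ ∧ ∀ p : ℕ, p.Prime → ¬ p ∣ Δ →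
      ∀ 𝔭 : Ideal (𝓞 (E k)), 𝔭.IsPrime → (p : 𝓞 (E k)) ∈ 𝔭 → (p : 𝓞 (E k)) ∉ 𝔭 ^ 2 := by
    intro k
    obtain ⟨Δ, h1, h2⟩ := un_exists (E k)
    exact ⟨Δ, h1, fun p hp hd => (h2 p hp hd).2⟩
  choose Δ' hΔ' hunΔ using hun2
  obtain ⟨M, hM1, hM⟩ := fin_prod m
  obtain ⟨M', hM1', hM'⟩ := fin_prod Δ'
  have hn : 1 ≤ Δ * (M * M') := Nat.one_le_iff_ne_zero.2 (by positivity)
  refine fin_wrap s S hS (Δ * (M * M')) _ ?_
  intro v hvS hpr hvn Q φ hφ hz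
  obtain ⟨hNp, P, hF, hWv⟩ := hW v hvS hpr Q φ hφ hz
  set p := plNorm v with hp
  have hp1 : ¬ p ∣ Δ := base_not_dvd hn ⟨M * M', rfl⟩ hvn
  have hp2 : ∀ k, m k ≠ 0 → ¬ p ∣ m k := fun k hk hdvd =>
    base_not_dvd hn ⟨Δ * M', by ring⟩ hvn (hdvd.trans (hM k hk))
  have hp3 : ∀ k, ¬ p ∣ Δ' k := fun k hdvd =>
    base_not_dvd hn ⟨Δ * M, by ring⟩ hvn (hdvd.trans (hM' k (by have := hΔ' k; omega)))
  have hpQ : (p : 𝓞 L) ∈ Q := base_prime_mem hφ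
  have hQun : (p : 𝓞 L) ∉ Q ^ 2 := (hun p hpr hp1).2 Q hφ.1 hpQ
  have hst := pr_stable v hpr Q φ s hφ hz
  have key : ∀ k, ∃ u : (E k →+* L) → ℕ, (∀ σ, u σ ≤ m k) ∧
      (∀ σ, RingOfIntegers.mapRingHom σ ((P k).coeff (m k - u σ)) ∉ Q) ∧
      (∀ σ i, u σ < i → i ≤ m k → RingOfIntegers.mapRingHom σ ((P k).coeff (m k - i)) ∈ Q) ∧
      prBound (Module.finrank ℚ (E k)) (f k) (m k) ≤ ∑ σ, u σ := fun k =>
    pr_point (hE k) (hreal k) (hF k) hφ.1 hpr hpQ hQun (hp2 k) (hunΔ k p hpr (hp3 k)) (hN k) hNp hst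
      (f k) (hf k)
  choose u hu1 hu2 hu3 hu4 using key
  refine ⟨∑ k, ∑ σ : E k →+* L, (m k - u k σ), ?_, asm_gen hE u p Q hφ.1 hpQ (W v) P hWv hu2
    (fun k σ i hi him => hu3 k σ i hi him)⟩
  have h1 : ∑ k, ∑ σ : E k →+* L, (m k - u k σ) + ∑ k, ∑ σ : E k →+* L, u k σ = b := by
    rw [hb, ← Finset.sum_add_distrib]
    refine Finset.sum_congr rfl fun k _ => ?_
    rw [← Finset.sum_add_distrib, Finset.sum_congr rfl (fun σ _ => Nat.sub_add_cancel (hu1 k σ)),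
      Finset.sum_const, Finset.card_univ, ← Nat.card_eq_fintype_card, hE k, smul_eq_mul, mul_comm]
  have h2 : T ≤ ∑ k, ∑ σ : E k →+* L, u k σ := by
    rw [hT]
    exact Finset.sum_le_sum fun k _ => hu4 k
  omega

end Pool.Agent.H35.OT
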