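import Pool.Agent.H35.OT.Nb

/-! The coefficients at the vertices of the Hodge polygon are units: one factor, one prime. -/

set_option autoImplicit false

namespace Pool.Agent.H35.OT

open Polynomial NumberField Pool.Agent.H7.OR

/-- the duality relation between the coefficients -/
theorem pt_dual {E : Type} [Field E] [NumberField E] (ι : E →+* E)
    (hι : ∀ (τ : E →+* ℂ) (x : E), τ (ι x) = (starRingEnd ℂ) (τ x)) (P : (𝓞 E)[X]) (hP : P.Monic)
    (m : ℕ) (hd : P.natDegree = m) (p : ℕ)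
    (hpure : ∀ τ : E →+* ℂ, ∀ z : ℂ, (tmap τ P).IsRoot z → ‖z‖ ^ 2 = (p : ℝ)) (i : ℕ) (hi : i ≤ m) :
    RingOfIntegers.mapRingHom ι (P.coeff (m - i)) * P.coeff 0 = (p : 𝓞 E) ^ i * P.coeff i := by
  obtain ⟨τ⟩ : Nonempty (E →+* ℂ) := inferInstance
  have hmon : (tmap τ P).Monic := hP.map _
  have hnd : (tmap τ P).natDegree = m := by rw [tmap, hP.natDegree_map, hd]
  have h1 := cg_dual (tmap τ P) hmon m hnd (p : ℝ) (hpure τ) i hi
  rw [tmap_coeff, tmap_coeff, tmap_coeff, ← hι] at h1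
  have hinj : Function.Injective (fun x : 𝓞 E => τ (x : E)) :=
    τ.injective.comp RingOfIntegers.coe_injective
  apply hinj
  simp only
  have e1 : ((RingOfIntegers.mapRingHom ι (P.coeff (m - i)) * P.coeff 0 : 𝓞 E) : E) =
      ι ((P.coeff (m - i) : 𝓞 E) : E) * ((P.coeff 0 : 𝓞 E) : E) := rfl
  have e2 : (((p : 𝓞 E) ^ i * P.coeff i : 𝓞 E) : E) = (p : E) ^ i * ((P.coeff i : 𝓞 E) : E) := by
    simp
  rw [e1, e2, map_mul, map_mul, map_pow, map_natCast, h1]
  simp

section

variable {K E L : Type} [Field K] [Field E] [NumberField E] [Field L] [NumberField L] [Algebra K L]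
  {s : L ≃ₐ[K] L} {ι : E →+* E} {m j : ℕ} {r : (E →+* L) → ℕ}
  {p N : ℕ} {Q : Ideal (𝓞 L)} {P : (𝓞 E)[X]}

omit [NumberField E] [NumberField L] in
theorem pt_comp (σ : E →+* L) (ι : E →+* E) (x : 𝓞 E) :
    RingOfIntegers.mapRingHom (σ.comp ι) x = RingOfIntegers.mapRingHom σ (RingOfIntegers.mapRingHom ι x) :=
  rfl

omit [NumberField L] in
theorem pt_le (h : IsType s ι m j r) (σ : E →+* L) : r σ ≤ m := by
  have := h.dual σ
  omega

theorem pt_pure (hF : IsFactor p N m Q r P) (τ : E →+* ℂ) (z : ℂ) (hz : (tmap τ P).IsRoot z) :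
    ‖z‖ ^ 2 = (p : ℝ) := by
  have := hF.weil.pure τ z hz
  rwa [pow_one] at this

/-- the exact valuation of the constant coefficient -/
theorem pt_exact (h : IsType s ι m j r) (hF : IsFactor p N m Q r P) (hQ : Q.IsPrime) (hp : p.Prime)
    (hpQ : (p : 𝓞 L) ∈ Q) (hun : (p : 𝓞 L) ∉ Q ^ 2) (σ : E →+* L) :
    RingOfIntegers.mapRingHom σ (P.coeff 0) ∉ Q ^ (m - r σ + 1) := by
  intro hc
  have h1 := pt_dual ι h.conj P hF.weil.monic m hF.weil.deg p (pt_pure hF) m le_rfl
  rw [Nat.sub_self] at h1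
  have hlead : P.coeff m = 1 := by
    have := hF.weil.monic.coeff_natDegree
    rwa [hF.weil.deg] at this
  rw [hlead, mul_one] at h1
  have h2 := congrArg (RingOfIntegers.mapRingHom σ) h1
  rw [map_mul, map_pow, map_natCast, ← pt_comp] at h2
  have h3 := hF.hodge (σ.comp ι) m le_rfl
  rw [Nat.sub_self] at h3
  have hd := h.dual σ
  have h4 : m - r (σ.comp ι) = r σ := by omega
  rw [h4] at h3
  have h5 := Ideal.mul_mem_mul h3 hc
  rw [h2, ← pow_add] at h5
  have h6 : r σ + (m - r σ + 1) = m + 1 := by omega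
  rw [h6] at h5
  have h7 := loc_pow Q hQ p hp.ne_zero hpQ hun m 1 (fun h => hQ.ne_top ((Ideal.eq_top_iff_one _).2 h))
  rw [mul_one] at h7
  exact h7 h5

/-- the main claim: the coefficient `j` is a unit at the embeddings with `r σ = j` -/
theorem pt_main (h : IsType s ι m j r) (hF : IsFactor p N m Q r P) (hQ : Q.IsPrime) (hp : p.Prime)
    (hpQ : (p : 𝓞 L) ∈ Q) (hun : (p : 𝓞 L) ∉ Q ^ 2) (hpm : ¬ p ∣ m)
    (hN : 2 * m.choose j ^ Module.finrank ℚ E < N) (hNp : N ∣ p - 1)
    (hs : ∀ x ∈ Q, RingOfIntegers.mapRingHom (s : L →+* L) x ∈ Q)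
    (hj : 0 < j) (hjm : 2 * j ≤ m) (σ₀ : E →+* L) (hσ₀ : r σ₀ = j) :
    RingOfIntegers.mapRingHom σ₀ (P.coeff (m - j)) ∉ Q := by
  classical
  intro hbad
  have hfin : Finite (E →+* L) := by
    have h0 : Module.finrank ℚ E ≠ 0 := Module.finrank_pos.ne'
    rw [← h.emb] at h0
    exact (Nat.card_ne_zero.1 h0).2
  let _ := Fintype.ofFinite (E →+* L)
  set e := Module.finrank ℚ E with he
  have hcard : Fintype.card (E →+* L) = e := by rw [← Nat.card_eq_fintype_card]; exact h.emb
  set c := P.coeff (m - j) with hc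
  set B : Set (E →+* L) := {σ | r σ = j ∧ RingOfIntegers.mapRingHom σ c ∈ Q} with hB
  have hdualj := pt_dual ι h.conj P hF.weil.monic m hF.weil.deg p (pt_pure hF) j (by omega)
  -- stability
  have hB1 : ∀ σ ∈ B, r σ = j ∧ (s : L →+* L).comp σ ∈ B := by
    rintro σ ⟨h1, h2⟩
    refine ⟨h1, ?_, ?_⟩
    · rw [h.inv, h1]
    · exact hs _ h2
  have hB2 : 2 * j = m → ∀ σ ∈ B, σ.comp ι ∈ B := by
    rintro h2j σ ⟨h1, h2⟩
    have hd := h.dual σ
    refine ⟨by omega, ?_⟩
    by_contra hcon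
    have h3 := congrArg (RingOfIntegers.mapRingHom σ) hdualj
    rw [map_mul, map_mul, map_pow, map_natCast, ← pt_comp] at h3
    have h4 : P.coeff j = c := by rw [hc]; congr 1; omega
    rw [h4, ← hc] at h3
    have h5 : RingOfIntegers.mapRingHom (σ.comp ι) c * RingOfIntegers.mapRingHom σ (P.coeff 0) ∈
        Q ^ (j + 1) := by
      rw [h3, pow_succ]
      exact Ideal.mul_mem_mul (Ideal.pow_mem_pow hpQ j) h2
    have h6 := (Ideal.IsPrime.mul_mem_pow Q h5).resolve_left hcon
    have h7 := pt_exact h hF hQ hp hpQ hun σ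
    rw [h1, show m - j + 1 = j + 1 by omega] at h7
    exact h7 h6
  have hbig := h.big B ⟨σ₀, hσ₀, hbad⟩ hB1 hB2
  -- counting
  set n0 := (Finset.univ.filter (fun σ : E →+* L => r σ = 0)).card with hn0
  set nB := (Finset.univ.filter (fun σ : E →+* L => r σ = j ∧ RingOfIntegers.mapRingHom σ c ∈ Q)).card
    with hnB
  have hBc : B.ncard = nB := by
    rw [hnB, ← Set.ncard_coe_finset]
    congr 1
    ext σ
    simp [hB]
  have hOc : {σ : E →+* L | 0 < r σ ∧ r σ < m}.ncard =
      (Finset.univ.filter (fun σ : E →+* L => 0 < r σ ∧ r σ < m)).card := by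
    rw [← Set.ncard_coe_finset]
    congr 1
    ext σ
    simp
  have hιι : ∀ x : E, ι (ι x) = x := by
    intro x
    obtain ⟨τ⟩ : Nonempty (E →+* ℂ) := inferInstance
    apply τ.injective
    rw [h.conj, h.conj, Complex.conj_conj]
  have hιc : ∀ σ : E →+* L, (σ.comp ι).comp ι = σ := by
    intro σ
    ext x
    simp [hιι]
  have hnm : (Finset.univ.filter (fun σ : E →+* L => r σ = m)).card = n0 := by
    rw [hn0]
    refine Finset.card_nbij' (fun σ => σ.comp ι) (fun σ => σ.comp ι) ?_ ?_ ?_ ?_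
    · intro σ hσ
      simp only [Finset.mem_coe, Finset.mem_filter, Finset.mem_univ, true_and] at hσ ⊢
      have := h.dual σ
      omega
    · intro σ hσ
      simp only [Finset.mem_coe, Finset.mem_filter, Finset.mem_univ, true_and] at hσ ⊢
      have := h.dual σ
      omega
    · intro σ _
      exact hιc σ
    · intro σ _
      exact hιc σ
  have hsplit : e = n0 + n0 + (Finset.univ.filter (fun σ : E →+* L => 0 < r σ ∧ r σ < m)).card := by
    rw [← hcard, ← Finset.card_univ]
    conv_rhs => rw [← hnm]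
    rw [hnm]
    have h1 : (Finset.univ : Finset (E →+* L)) =
        (Finset.univ.filter (fun σ : E →+* L => r σ = 0) ∪ Finset.univ.filter (fun σ : E →+* L => r σ = m)) ∪
        Finset.univ.filter (fun σ : E →+* L => 0 < r σ ∧ r σ < m) := by
      ext σ
      simp only [Finset.mem_univ, Finset.mem_union, Finset.mem_filter, true_and, true_iff]
      have := pt_le h σ
      omega
    conv_lhs => rw [h1]
    rw [Finset.card_union_of_disjoint, Finset.card_union_of_disjoint, hnm]
    · rw [Finset.disjoint_left]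
      intro σ h2 h3
      simp only [Finset.mem_filter, Finset.mem_univ, true_and] at h2 h3
      omega
    · rw [Finset.disjoint_left]
      intro σ h2 h3
      simp only [Finset.mem_union, Finset.mem_filter, Finset.mem_univ, true_and] at h2 h3
      omega
  set k := nB + j * n0 with hk
  have h2k : j * e ≤ 2 * k := by
    rw [hBc, hOc] at hbig
    rw [hk, hsplit]
    nlinarith
  -- the norm
  set n := Algebra.norm ℤ c with hn
  have hprod := in_prod E h.emb c
  have hmem : ((n : ℤ) : 𝓞 L) ∈ Q ^ k := by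
    rw [hn, hprod]
    have h1 : ∀ σ : E →+* L, RingOfIntegers.mapRingHom σ c ∈
        Q ^ ((if r σ = j ∧ RingOfIntegers.mapRingHom σ c ∈ Q then 1 else 0) + (if r σ = 0 then j else 0)) := by
      intro σ
      by_cases h2 : r σ = 0
      · have h3 : ¬ (r σ = j ∧ RingOfIntegers.mapRingHom σ c ∈ Q) := by
          rintro ⟨h4, -⟩
          omega
        rw [if_neg h3, if_pos h2, zero_add]
        have h5 := hF.hodge σ j (by omega)
        rwa [h2, Nat.sub_zero] at h5
      · rw [if_neg h2, add_zero]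
        by_cases h3 : r σ = j ∧ RingOfIntegers.mapRingHom σ c ∈ Q
        · rw [if_pos h3, pow_one]
          exact h3.2
        · rw [if_neg h3, pow_zero, Ideal.one_eq_top]
          exact Submodule.mem_top (R := 𝓞 L) (M := 𝓞 L)
    have h2 : ∏ σ : E →+* L, Q ^ ((if r σ = j ∧ RingOfIntegers.mapRingHom σ c ∈ Q then 1 else 0) +
        (if r σ = 0 then j else 0)) = Q ^ k := by
      rw [Finset.prod_pow_eq_pow_sum, Finset.sum_add_distrib, ← Finset.sum_filter, ← Finset.sum_filter,
        Finset.sum_const, Finset.sum_const, hk, hnB, hn0]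
      simp [mul_comm]
    rw [← h2]
    exact Ideal.prod_mem_prod fun σ _ => h1 σ
  have heach := nb h.emb p N m j Q P hF.weil.monic hF.weil.deg (pt_pure hF) hF.weil.level hQ hp hpQ hun hN hNp (by omega)
    k h2k hmem
  have hp0 : (0 : ℝ) < p := by exact_mod_cast hp.pos
  have hpow : (m : 𝓞 E) ^ m * P.coeff 0 = P.coeff (m - 1) ^ m := by
    obtain ⟨τ⟩ : Nonempty (E →+* ℂ) := inferInstance
    have hmon : (tmap τ P).Monic := hF.weil.monic.map _
    have hnd : (tmap τ P).natDegree = m := by rw [tmap, hF.weil.monic.natDegree_map, hF.weil.deg]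
    have h1 := (cg_all (tmap τ P) hmon m hnd j hj (by omega) (p : ℝ) hp0 (pt_pure hF τ) (by
      rw [tmap_coeff]
      exact heach τ)).1
    rw [tmap_coeff, tmap_coeff] at h1
    have hinj : Function.Injective (fun x : 𝓞 E => τ (x : E)) :=
      τ.injective.comp RingOfIntegers.coe_injective
    apply hinj
    simp only
    have e1 : (((m : 𝓞 E) ^ m * P.coeff 0 : 𝓞 E) : E) = (m : E) ^ m * ((P.coeff 0 : 𝓞 E) : E) := by
      simp
    have e2 : ((P.coeff (m - 1) ^ m : 𝓞 E) : E) = ((P.coeff (m - 1) : 𝓞 E) : E) ^ m := by simp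
    rw [e1, e2, map_mul, map_pow, map_pow, map_natCast]
    exact h1
  -- contradiction at `σ₀`
  have hσ := congrArg (RingOfIntegers.mapRingHom σ₀) hpow
  rw [map_mul, map_pow, map_pow, map_natCast] at hσ
  have hex := pt_exact h hF hQ hp hpQ hun σ₀
  rw [hσ₀] at hex
  by_cases h1 : RingOfIntegers.mapRingHom σ₀ (P.coeff (m - 1)) ∈ Q
  · have h2 : (m : 𝓞 L) ^ m * RingOfIntegers.mapRingHom σ₀ (P.coeff 0) ∈ Q ^ m := by
      rw [hσ]
      exact Ideal.pow_mem_pow h1 m
    have h3 : (m : 𝓞 L) ^ m ∉ Q := by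
      intro h4
      have h5 := hQ.mem_of_pow_mem m h4
      apply hpm
      have h6 := in_int Q hQ.ne_top p hp hpQ (m : ℤ) (by exact_mod_cast h5)
      exact_mod_cast h6
    have h7 := (Ideal.IsPrime.mul_mem_pow Q h2).resolve_left h3
    exact hex (Ideal.pow_le_pow_right (by omega) h7)
  · have h2 := hF.hodge σ₀ m le_rfl
    rw [Nat.sub_self, hσ₀] at h2
    have h3 : RingOfIntegers.mapRingHom σ₀ (P.coeff 0) ∈ Q :=
      Ideal.pow_le_self (by omega : m - j ≠ 0) h2
    have h4 : RingOfIntegers.mapRingHom σ₀ (P.coeff (m - 1)) ^ m ∈ Q := by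
      rw [← hσ]
      exact Q.mul_mem_left _ h3
    exact h1 (hQ.mem_of_pow_mem m h4)

/-- all vertices -/
theorem pt_unit (h : IsType s ι m j r) (hF : IsFactor p N m Q r P) (hQ : Q.IsPrime) (hp : p.Prime)
    (hpQ : (p : 𝓞 L) ∈ Q) (hun : (p : 𝓞 L) ∉ Q ^ 2) (hpm : m ≠ 0 → ¬ p ∣ m)
    (hN : 2 * m.choose j ^ Module.finrank ℚ E < N) (hNp : N ∣ p - 1)
    (hs : ∀ x ∈ Q, RingOfIntegers.mapRingHom (s : L →+* L) x ∈ Q) (σ : E →+* L) :
    RingOfIntegers.mapRingHom σ (P.coeff (m - r σ)) ∉ Q := by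
  have hle := pt_le h σ
  rcases Nat.eq_zero_or_pos (r σ) with h0 | h0
  · rw [h0, Nat.sub_zero]
    have hlead : P.coeff m = 1 := by
      have := hF.weil.monic.coeff_natDegree
      rwa [hF.weil.deg] at this
    rw [hlead, map_one]
    exact fun h => hQ.ne_top ((Ideal.eq_top_iff_one _).2 h)
  rcases hle.eq_or_lt with h1 | h1
  · have h2 := pt_exact h hF hQ hp hpQ hun σ
    rw [h1, Nat.sub_self, zero_add, pow_one] at h2
    rw [h1, Nat.sub_self]
    exact h2
  obtain ⟨hj, hjm, ht⟩ := h.type σ h0 h1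
  have hpm' := hpm (by omega)
  rcases ht with ht | ht
  · rw [ht]
    exact pt_main h hF hQ hp hpQ hun hpm' hN hNp hs hj hjm σ ht
  · intro hcon
    have hd := h.dual σ
    have h2 := pt_main h hF hQ hp hpQ hun hpm' hN hNp hs hj hjm (σ.comp ι) (by omega)
    have h3 := pt_dual ι h.conj P hF.weil.monic m hF.weil.deg p (pt_pure hF) j (by omega)
    have h4 := congrArg (RingOfIntegers.mapRingHom σ) h3
    rw [map_mul, map_mul, map_pow, map_natCast, ← pt_comp] at h4
    have h5 : m - r σ = j := by omega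
    rw [h5] at hcon
    have h6 : RingOfIntegers.mapRingHom (σ.comp ι) (P.coeff (m - j)) *
        RingOfIntegers.mapRingHom σ (P.coeff 0) ∈ Q ^ (j + 1) := by
      rw [h4, pow_succ]
      exact Ideal.mul_mem_mul (Ideal.pow_mem_pow hpQ j) hcon
    have h7 := (Ideal.IsPrime.mul_mem_pow Q h6).resolve_left h2
    have h8 := pt_exact h hF hQ hp hpQ hun σ
    rw [h5] at h8
    exact h8 h7

end

end Pool.Agent.H35.OT
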